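import Pool.Agent.Helper34.TP.Bary

/-!
The vertex opposite to a large facet of a small tetrahedron is attached to the facet.
-/

set_option autoImplicit false

namespace Pool.Agent.Helper34.TP

open Set Pool.Agent.Helper46.Tet

variable {ι : Type*}

theorem abs_fn_vertex (q : ι → V) (t : Fin 4 → ι) (v : Fin 4) :
    |fn (q ∘ fct t v) (q (t v))| = |Dt (q ∘ t)| := by
  have h : fn (q ∘ fct t v) (q (t v)) = Dt (q ∘ t) ∨ fn (q ∘ fct t v) (q (t v)) = -Dt (q ∘ t) := by
    have e00 : (Fin.succAbove (0 : Fin 4) (0 : Fin 3)) = (1 : Fin 4) := rfl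
    have e01 : (Fin.succAbove (0 : Fin 4) (1 : Fin 3)) = (2 : Fin 4) := rfl
    have e02 : (Fin.succAbove (0 : Fin 4) (2 : Fin 3)) = (3 : Fin 4) := rfl
    have e10 : (Fin.succAbove (1 : Fin 4) (0 : Fin 3)) = (0 : Fin 4) := rfl
    have e11 : (Fin.succAbove (1 : Fin 4) (1 : Fin 3)) = (2 : Fin 4) := rfl
    have e12 : (Fin.succAbove (1 : Fin 4) (2 : Fin 3)) = (3 : Fin 4) := rfl
    have e20 : (Fin.succAbove (2 : Fin 4) (0 : Fin 3)) = (0 : Fin 4) := rfl
    have e21 : (Fin.succAbove (2 : Fin 4) (1 : Fin 3)) = (1 : Fin 4) := rfl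
    have e22 : (Fin.succAbove (2 : Fin 4) (2 : Fin 3)) = (3 : Fin 4) := rfl
    have e30 : (Fin.succAbove (3 : Fin 4) (0 : Fin 3)) = (0 : Fin 4) := rfl
    have e31 : (Fin.succAbove (3 : Fin 4) (1 : Fin 3)) = (1 : Fin 4) := rfl
    have e32 : (Fin.succAbove (3 : Fin 4) (2 : Fin 3)) = (2 : Fin 4) := rfl
    fin_cases v
    · right
      simp only [fn, Dt, D3, fct, Function.comp, Fin.zero_eta, e00, e01, e02, Pi.sub_apply]
      ring
    · left
      simp only [fn, Dt, D3, fct, Function.comp, Fin.mk_one, e10, e11, e12, Pi.sub_apply]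
      ring
    · right
      simp only [fn, Dt, D3, fct, Function.comp, Fin.reduceFinMk, e20, e21, e22, Pi.sub_apply]
      ring
    · left
      simp only [fn, Dt, D3, fct, Function.comp, Fin.reduceFinMk, e30, e31, e32, Pi.sub_apply]
  rcases h with h | h
  · rw [h]
  · rw [h, abs_neg]

theorem crs_facets (r : Fin 4 → V) (v : Fin 4) :
    (crs (r (v.succAbove 1) - r (v.succAbove 0)) (r v - r (v.succAbove 0)) =
        nrm (r ∘ (v.succAbove 2).succAbove) ∨
      crs (r (v.succAbove 1) - r (v.succAbove 0)) (r v - r (v.succAbove 0)) =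
        - nrm (r ∘ (v.succAbove 2).succAbove)) ∧
    (crs (r (v.succAbove 2) - r (v.succAbove 0)) (r v - r (v.succAbove 0)) =
        nrm (r ∘ (v.succAbove 1).succAbove) ∨
      crs (r (v.succAbove 2) - r (v.succAbove 0)) (r v - r (v.succAbove 0)) =
        - nrm (r ∘ (v.succAbove 1).succAbove)) := by
  have key : ∀ a b c : V, crs (b - a) (c - a) = crs (b - a) (c - a) ∧
      crs (c - a) (b - a) = - crs (b - a) (c - a) ∧
      crs (c - b) (a - b) = crs (b - a) (c - a) ∧ crs (a - b) (c - b) = - crs (b - a) (c - a) ∧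
      crs (a - c) (b - c) = crs (b - a) (c - a) ∧ crs (b - c) (a - c) = - crs (b - a) (c - a) := by
    intro a b c
    refine ⟨rfl, ?_, ?_, ?_, ?_, ?_⟩ <;>
    · ext i
      fin_cases i <;>
      · simp only [crs, Pi.sub_apply, Pi.neg_apply, Fin.zero_eta, Fin.mk_one, Fin.reduceFinMk,
          Matrix.cons_val]
        ring
  fin_cases v
  · refine ⟨Or.inl ?_, Or.inl ?_⟩
    · exact (key (r 0) (r 1) (r 2)).2.2.1
    · exact (key (r 0) (r 1) (r 3)).2.2.1
  · refine ⟨Or.inr ?_, Or.inr ?_⟩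
    · exact (key (r 0) (r 1) (r 2)).2.1
    · exact (key (r 0) (r 1) (r 3)).2.1
  · refine ⟨Or.inl ?_, Or.inr ?_⟩
    · exact (key (r 0) (r 1) (r 2)).1
    · exact (key (r 0) (r 2) (r 3)).2.1
  · refine ⟨Or.inl ?_, Or.inl ?_⟩
    · exact (key (r 0) (r 1) (r 3)).1
    · exact (key (r 0) (r 2) (r 3)).1

theorem attach {Λ δ : ℝ} {q : ι → V} {t : Fin 4 → ι} (hD : Dt (q ∘ t) ≠ 0)
    (hs : |Dt (q ∘ t)| ≤ δ) {v : Fin 4} (hv : Lg Λ q t v) {C : Finset ι}
    (hC : ∀ d, Att Λ δ q C d → d ∈ C) (hF : ∀ j, fct t v j ∈ C) : t v ∈ C := by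
  apply hC
  refine ⟨fct t v 0, hF 0, fct t v 1, hF 1, fct t v 2, hF 2, nrm_fct_ne hD v, ?_, ?_, ?_⟩
  · have h1 := abs_fn_vertex q t v
    rw [← h1] at hs
    exact hs
  · have h1 := (crs_facets (q ∘ t) v).1
    have h2 : ‖crs (q (fct t v 1) - q (fct t v 0)) (q (t v) - q (fct t v 0))‖ =
        AA q t (v.succAbove 2) := by
      rcases h1 with h1 | h1
      · exact congrArg norm h1
      · have h3 := congrArg norm h1
        rw [norm_neg] at h3
        exact h3
    rw [h2]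
    exact hv _
  · have h1 := (crs_facets (q ∘ t) v).2
    have h2 : ‖crs (q (fct t v 2) - q (fct t v 0)) (q (t v) - q (fct t v 0))‖ =
        AA q t (v.succAbove 1) := by
      rcases h1 with h1 | h1
      · exact congrArg norm h1
      · have h3 := congrArg norm h1
        rw [norm_neg] at h3
        exact h3
    rw [h2]
    exact hv _

end Pool.Agent.Helper34.TP
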