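import Pool.Agent.Helper34.TP.Defs

/-!
Barycentric coordinates and facets.
-/

set_option autoImplicit false

namespace Pool.Agent.Helper34.TP

open Set Pool.Agent.Helper46.Tet

variable {ι : Type*}

theorem fn_bary {q : ι → V} {t : Fin 4 → ι} (h : Dt (q ∘ t) ≠ 0) (x : V) (v : Fin 4) :
    fn (q ∘ fct t v) x = bary (q ∘ t) x v * fn (q ∘ fct t v) (q (t v)) := by
  conv_lhs => rw [← bary_comb h x]
  rw [fn_comb _ _ (bary_sum h x), Finset.sum_eq_single v]
  · rfl
  · intro u _ hu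
    obtain ⟨j, rfl⟩ := Fin.exists_succAbove_eq hu
    have := fn_self (q ∘ fct t v) j
    have h2 : fn (q ∘ fct t v) ((q ∘ t) (v.succAbove j)) = 0 := this
    rw [h2, mul_zero]
  · intro hv
    exact absurd (Finset.mem_univ v) hv

theorem fn_vertex_ne {q : ι → V} {t : Fin 4 → ι} (h : Dt (q ∘ t) ≠ 0) (v : Fin 4) :
    fn (q ∘ fct t v) (q (t v)) ≠ 0 := fun h0 => h ((fn_fct_iff q t v).1 h0)

theorem mem_cv_iff {r : Fin 4 → V} (h : Dt r ≠ 0) (x : V) :
    x ∈ cv r ↔ ∀ v, 0 ≤ bary r x v := by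
  constructor
  · rintro ⟨w, h0, h1, rfl⟩ v
    rw [bary_of_comb h h1]
    exact h0 v
  · intro hx
    exact ⟨bary r x, hx, bary_sum h x, bary_comb h x⟩

theorem bary_add (r : Fin 4 → V) (y e : V) (ε : ℝ) (v : Fin 4) :
    bary r (y + ε • e) v = bary r y v + ε * (bary r (y + e) v - bary r y v) := by
  fin_cases v <;>
  · simp only [bary, Fin.zero_eta, Fin.mk_one, Fin.reduceFinMk, Matrix.cons_val]
    rw [← sub_div, ← mul_div_assoc, ← add_div]
    congr 1
    simp only [D3, Pi.sub_apply, Pi.add_apply, Pi.smul_apply, smul_eq_mul]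
    ring

/-- A point of a tetrahedron with a vanishing coordinate lies on the facet. -/
theorem mem_fct {q : ι → V} {t : Fin 4 → ι} (h : Dt (q ∘ t) ≠ 0) {x : V} (hx : x ∈ cv (q ∘ t))
    {v : Fin 4} (hv : bary (q ∘ t) x v = 0) : x ∈ cv (q ∘ fct t v) := by
  have h0 := (mem_cv_iff h x).1 hx
  have h1 := bary_sum h x
  have h2 := bary_comb h x
  refine ⟨fun j => bary (q ∘ t) x (v.succAbove j), fun j => h0 _, ?_, ?_⟩
  · rw [Fin.sum_univ_succAbove _ v, hv, zero_add] at h1
    exact h1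
  · rw [Fin.sum_univ_succAbove _ v, hv, zero_smul, zero_add] at h2
    exact h2

/-- Points of the facet have vanishing coordinate at the opposite vertex. -/
theorem bary_fct {q : ι → V} {t : Fin 4 → ι} (h : Dt (q ∘ t) ≠ 0) {x : V} {v : Fin 4}
    (hx : x ∈ cv (q ∘ fct t v)) : bary (q ∘ t) x v = 0 := by
  have h1 := fn_bary h x v
  rw [fn_cv hx] at h1
  rcases mul_eq_zero.1 h1.symm with h2 | h2
  · exact h2
  · exact absurd h2 (fn_vertex_ne h v)

theorem cv_fct_subset {q : ι → V} {t : Fin 4 → ι} (v : Fin 4) : cv (q ∘ fct t v) ⊆ cv (q ∘ t) := by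
  rw [cv_eq_convexHull, cv_eq_convexHull]
  apply convexHull_mono
  rintro _ ⟨j, rfl⟩
  exact ⟨v.succAbove j, rfl⟩

/-- The convex hull depends only on the range. -/
theorem cv_range {κ κ' : Type*} [Fintype κ] [Fintype κ'] {q : ι → V} {s : κ → ι} {t : κ' → ι}
    (h : range s ⊆ range t) : cv (q ∘ s) ⊆ cv (q ∘ t) := by
  rw [cv_eq_convexHull, cv_eq_convexHull, range_comp, range_comp]
  exact convexHull_mono (image_mono h)

end Pool.Agent.Helper34.TP
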