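import Pool.Agent.Helper34.TP.Bary

/-!
Block TP-1.  A tetrahedralization of a finite set of points of Euclidean space gives a family `T'`
of index tuples with `Tri2` (tetrahedralization + face to face).

PROOF IN WORDS.  Copy `Pool.Agent.Helper46.Tet.exists_tri` (file Helper46/Tet/Convert.lean): there
`T' = image G univ` with `G : ↥T → (Fin 4 → ι)`, `((t : Finset E3) : Set E3) = range (φ ∘ q ∘ G t)`.
The fields of `Tri q T'` are proved there word for word.  The new field `ftf`: let `s' = G s`,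
`t' = G t`, `y ∈ cv (q ∘ s') ∩ cv (q ∘ t')`.  By `h3` `φ y ∈ convexHull (↑s ∩ ↑t)`.  Suppose
`s' v ∉ range t'`; as `φ ∘ q` is injective, `φ (q (s' v)) ∉ t`, so
`↑s ∩ ↑t ⊆ range fun j => φ (q (fct s' v j))` (as in `exists_tri`, `hsub`), hence `y ∈ cv (q ∘ fct s' v)`
and `bary (q ∘ s') y v = 0` by `bary_fct` (file Bary.lean).
-/

set_option autoImplicit false

namespace Pool.Agent.Helper34.TP

open Set Pool.Agent.Helper46.Tet

theorem exists_tri2 {ι : Type*} [Fintype ι] [DecidableEq E3] {q : ι → V}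
    (hinj : Function.Injective q)
    (hg : ∀ t : Fin 4 → ι, Function.Injective t → Dt (q ∘ t) ≠ 0)
    (T : Finset (Finset E3))
    (h1 : ∀ t ∈ T, t ⊆ (Finset.univ.image fun i => φ (q i)) ∧ t.card = 4)
    (h2 : (⋃ t ∈ T, convexHull ℝ (t : Set E3)) =
      convexHull ℝ ((Finset.univ.image fun i => φ (q i) : Finset E3) : Set E3))
    (h3 : ∀ t ∈ T, ∀ s ∈ T, convexHull ℝ (t : Set E3) ∩ convexHull ℝ (s : Set E3) =
      convexHull ℝ ((t : Set E3) ∩ (s : Set E3))) :
    ∃ T' : Finset (Fin 4 → ι), T'.card = T.card ∧ Tri2 q T' := by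
  classical
  have hφi : Function.Injective fun i => φ (q i) := φ.injective.comp hinj
  have hex : ∀ t : T, ∃ g : Fin 4 → ι, Function.Injective g ∧
      ((t : Finset E3) : Set E3) = range fun j => φ (q (g j)) := by
    intro t
    exact exists_enum (h1 t t.2).1 (h1 t t.2).2
  choose G hGi hGr using hex
  have hGinj : Function.Injective G := by
    intro s t hst
    apply Subtype.ext
    apply Finset.coe_injective
    rw [hGr, hGr, hst]
  -- the intersection of two cells avoids a vertex of `s` which is not in `t`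
  have hface : ∀ s t : T, ∀ y : V, y ∈ cv (q ∘ G s) → y ∈ cv (q ∘ G t) → ∀ v,
      φ (q (G s v)) ∉ (t : Finset E3) → y ∈ cv (q ∘ fct (G s) v) := by
    intro s t y hys hyt v hv
    have hy1 : φ y ∈ convexHull ℝ ((s : Finset E3) : Set E3) := by
      rw [hGr, ← phi_cv (fun j => q (G s j))]
      exact ⟨y, hys, rfl⟩
    have hy2 : φ y ∈ convexHull ℝ ((t : Finset E3) : Set E3) := by
      rw [hGr, ← phi_cv (fun j => q (G t j))]
      exact ⟨y, hyt, rfl⟩
    have hy3 : φ y ∈ convexHull ℝ (((s : Finset E3) : Set E3) ∩ ((t : Finset E3) : Set E3)) := by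
      rw [← h3 s s.2 t t.2]
      exact ⟨hy1, hy2⟩
    have hsub : (((s : Finset E3) : Set E3) ∩ ((t : Finset E3) : Set E3)) ⊆
        range fun j => φ (q (fct (G s) v j)) := by
      rintro x ⟨hx1, hx2⟩
      rw [hGr] at hx1
      obtain ⟨j, rfl⟩ := hx1
      have hjv : j ≠ v := by
        rintro rfl
        exact hv hx2
      obtain ⟨i, hi⟩ := Fin.exists_succAbove_eq hjv
      refine ⟨i, ?_⟩
      simp only [fct, Function.comp, hi]
    have hy4 := convexHull_mono (𝕜 := ℝ) hsub hy3
    rw [← phi_cv (fun j => q (fct (G s) v j))] at hy4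
    obtain ⟨z, hz, hzy⟩ := hy4
    have hzy' : z = y := φ.injective hzy
    subst hzy'
    exact hz
  refine ⟨Finset.univ.image G, ?_, ⟨⟨?_, ?_, ?_⟩, ?_⟩⟩
  · rw [Finset.card_image_of_injective _ hGinj]
    simp
  · intro t ht
    rw [Finset.mem_image] at ht
    obtain ⟨s, _, rfl⟩ := ht
    exact hg _ (hGi s)
  · intro s' hs' t' ht' hst'
    rw [Finset.mem_image] at hs' ht'
    obtain ⟨s, _, rfl⟩ := hs'
    obtain ⟨t, _, rfl⟩ := ht'
    have hst : s ≠ t := fun h => hst' (by rw [h])
    rw [Set.disjoint_left]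
    intro y hys hyt
    -- a vertex of `s` not in `t`
    have hv : ∃ v, φ (q (G s v)) ∉ (t : Finset E3) := by
      by_contra hne
      push Not at hne
      apply hst
      apply Subtype.ext
      apply Finset.eq_of_subset_of_card_le
      · intro x hx
        have : x ∈ ((s : Finset E3) : Set E3) := hx
        rw [hGr] at this
        obtain ⟨j, rfl⟩ := this
        exact hne j
      · rw [(h1 s s.2).2, (h1 t t.2).2]
    obtain ⟨v, hv⟩ := hv
    have hz := hface s t y (ocv_subset_cv _ hys) (ocv_subset_cv _ hyt) v hv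
    have e4 := bary_fct (hg _ (hGi s)) hz
    obtain ⟨w', hw0', hw1', hw2'⟩ := hys
    have e1 := bary_of_comb (hg _ (hGi s)) hw1'
    rw [hw2'] at e1
    rw [e1] at e4
    have := hw0' v
    rw [e4] at this
    exact lt_irrefl _ this
  · intro y hy
    have hy1 : φ y ∈ convexHull ℝ ((Finset.univ.image fun i => φ (q i) : Finset E3) : Set E3) := by
      rw [Finset.coe_image, Finset.coe_univ, image_univ, ← phi_cv q]
      exact ⟨y, hy, rfl⟩
    rw [← h2] at hy1
    simp only [mem_iUnion] at hy1 ⊢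
    obtain ⟨t, ht, hyt⟩ := hy1
    refine ⟨G ⟨t, ht⟩, Finset.mem_image_of_mem _ (Finset.mem_univ _), ?_⟩
    have hr := hGr ⟨t, ht⟩
    simp only at hr
    rw [hr, ← phi_cv (fun j => q (G ⟨t, ht⟩ j))] at hyt
    obtain ⟨z, hz, hzy⟩ := hyt
    have hzy' : z = y := φ.injective hzy
    subst hzy'
    exact hz
  · intro s' hs' t' ht' y hys hyt v hne
    rw [Finset.mem_image] at hs' ht'
    obtain ⟨s, _, rfl⟩ := hs'
    obtain ⟨t, _, rfl⟩ := ht'
    by_contra hnot
    have hv : φ (q (G s v)) ∉ (t : Finset E3) := by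
      intro hmem
      have hmem' : φ (q (G s v)) ∈ ((t : Finset E3) : Set E3) := hmem
      rw [hGr] at hmem'
      obtain ⟨j, hj⟩ := hmem'
      exact hnot ⟨j, hφi hj⟩
    exact hne (bary_fct (hg _ (hGi s)) (hface s t y hys hyt v hv))

end Pool.Agent.Helper34.TP
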