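import Pool.Agent.Helper34.TP.Bary

/-!
Block TP-3.  At most `|C|^3 / 12` tetrahedra of `T` have all their vertices in `C`.

PROOF IN WORDS.  Every `t ∈ T` is injective (`Dt (q ∘ t) ≠ 0`).
(a) `two_sides`: if `s, t ∈ T`, `s ≠ t` and two facets have the same vertex set,
`Set.range (fct s u) = Set.range (fct t v)`, then `q (s u)` and `q (t v)` are on different sides of
their plane: `fn (q ∘ fct t v) (q (s u)) * fn (q ∘ fct t v) (q (t v)) < 0`.
Indeed `fn (q ∘ fct t v) (q (s u)) ≠ 0` (otherwise `q ∘ s` lies in a plane, `Dt (q ∘ s) = 0`: use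
`fn_bary` for `s` and that `fn (q ∘ fct t v)` vanishes on the vertices of `fct s u`, then on `q (s u)`,
so on every point).  Suppose the product is positive.  Let `y = ∑ (1/3) • q (fct t v j)` and
`y_ε = (1-ε) • y + ε • q (t v)`.  It is in `ocv (q ∘ t)` for `0 < ε < 1`.  In the coordinates of `s`:
`bary (q ∘ s) y_ε = (1-ε) bary (q ∘ s) y + ε bary (q ∘ s) (q (t v))` (affine, or `bary_add`);
`bary (q ∘ s) y` is `1/3` at the vertices of the common facet and `0` at `u`; and
`bary (q ∘ s) (q (t v)) u > 0` since `fn F' x = bary (q ∘ s) x u * fn F' (q (s u))` for `F' = q ∘ fct s u` and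
for `F' = q ∘ fct t v` as well (any affine functional vanishing on the common facet), so for small
`ε > 0` all coordinates are positive and `y_ε ∈ ocv (q ∘ s)`, contradiction to `hT.tri.disj`.
(b) So for a 3-subset `f` of `C` at most two pairs `(t, v)` with `t ∈ T` have
`Finset.univ.image (fct t v) = f` [three such pairs: two are on the same side; the same `t` with two
different `v` gives different vertex sets, as `t` is injective].
(c) Count pairs `(t, v)`: `4 * N ≤ 2 * (C.powersetCard 3).card = 2 * C.card.choose 3`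
(`Finset.card_le_mul_card_image` or `Finset.sum_card_bipartiteAbove`...), and
`6 * choose K 3 ≤ K ^ 3` (`Nat.choose_le_pow_div` / descending factorial).
-/

set_option autoImplicit false

namespace Pool.Agent.Helper34.TP

open Set Pool.Agent.Helper46.Tet

private theorem fn_bary26 {ι : Type*} {q : ι → V} {s : Fin 4 → ι} (hs : Dt (q ∘ s) ≠ 0)
    (F : Fin 3 → ι) (u : Fin 4) (h : range (fct s u) ⊆ range F) (x : V) :
    fn (q ∘ F) x = bary (q ∘ s) x u * fn (q ∘ F) (q (s u)) := by
  conv_lhs => rw [← bary_comb hs x]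
  rw [fn_comb _ _ (bary_sum hs x), Finset.sum_eq_single u]
  · rfl
  · intro i _ hi
    obtain ⟨j, rfl⟩ := Fin.exists_succAbove_eq hi
    obtain ⟨k, hk⟩ := h ⟨j, rfl⟩
    have h1 := fn_self (q ∘ F) k
    have h2 : fn (q ∘ F) ((q ∘ s) (u.succAbove j)) = 0 := by
      have h3 : (q ∘ s) (u.succAbove j) = (q ∘ F) k := congrArg q hk.symm
      rw [h3]
      exact h1
    rw [h2, mul_zero]
  · intro hv
    exact absurd (Finset.mem_univ u) hv

private theorem bary_center26 {ι : Type*} {q : ι → V} {s : Fin 4 → ι} (hs : Dt (q ∘ s) ≠ 0)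
    (u : Fin 4) : bary (q ∘ s) (∑ j, (1 / 3 : ℝ) • q (fct s u j)) =
      fun i => if i = u then 0 else 1 / 3 := by
  have h1 : ∑ i : Fin 4, (if i = u then (0:ℝ) else 1 / 3) = 1 := by
    rw [Fin.sum_univ_succAbove _ u]
    simp only [if_true, Fin.succAbove_ne, if_false, Finset.sum_const, Finset.card_univ,
      Fintype.card_fin]
    norm_num
  rw [← bary_of_comb hs h1]
  congr 1
  rw [Fin.sum_univ_succAbove _ u]
  simp only [if_true, Fin.succAbove_ne, if_false, zero_smul, zero_add]
  rfl

open Filter Topology in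
private theorem open_near26 {ι : Type*} {q : ι → V} {s : Fin 4 → ι} (hs : Dt (q ∘ s) ≠ 0)
    (u : Fin 4) {z : V} (hz : 0 < bary (q ∘ s) z u) :
    ∀ᶠ ε in 𝓝[>] (0:ℝ), (∑ j, (1 / 3 : ℝ) • q (fct s u j)) +
      ε • (z - ∑ j, (1 / 3 : ℝ) • q (fct s u j)) ∈ ocv (q ∘ s) := by
  have hc := bary_center26 (q := q) hs u
  set y : V := ∑ j, (1 / 3 : ℝ) • q (fct s u j) with hy
  have key : ∀ i, ∀ᶠ ε in 𝓝[>] (0:ℝ), 0 < bary (q ∘ s) (y + ε • (z - y)) i := by
    intro i
    have hb : ∀ ε : ℝ, bary (q ∘ s) (y + ε • (z - y)) i =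
        bary (q ∘ s) y i + ε * (bary (q ∘ s) z i - bary (q ∘ s) y i) := by
      intro ε
      rw [bary_add, add_sub_cancel]
    by_cases hi : i = u
    · filter_upwards [self_mem_nhdsWithin] with ε hε
      rw [hb, hc, hi]
      simp only [if_true, sub_zero, zero_add]
      exact mul_pos hε hz
    · have h0 : Continuous fun ε : ℝ => bary (q ∘ s) y i +
          ε * (bary (q ∘ s) z i - bary (q ∘ s) y i) := by fun_prop
      have h1 : (0:ℝ) < bary (q ∘ s) y i + 0 * (bary (q ∘ s) z i - bary (q ∘ s) y i) := by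
        rw [zero_mul, add_zero, hc]
        simp only [if_neg hi]
        norm_num
      have h2 := (h0.tendsto 0).eventually (lt_mem_nhds h1)
      filter_upwards [h2.filter_mono nhdsWithin_le_nhds] with ε hε
      rw [hb]
      exact hε
  filter_upwards [eventually_all.2 key] with ε hε
  exact ⟨bary (q ∘ s) (y + ε • (z - y)), hε, bary_sum hs _, bary_comb hs _⟩

private theorem inj26 {ι : Type*} {q : ι → V} {t : Fin 4 → ι} (h : Dt (q ∘ t) ≠ 0) :
    Function.Injective t := by
  intro i j hij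
  by_contra hne
  apply fn_vertex_ne h i
  obtain ⟨k, hk⟩ := Fin.exists_succAbove_eq (Ne.symm hne)
  have h1 := fn_self (q ∘ fct t i) k
  have h2 : (q ∘ fct t i) k = q (t i) := by
    show q (t (i.succAbove k)) = q (t i)
    rw [hk, hij]
  rwa [h2] at h1

open Classical in
private theorem center_eq26 {ι : Type*} {q : ι → V} {s t : Fin 4 → ι} (hs : Function.Injective s)
    (ht : Function.Injective t) {u v : Fin 4}
    (h : Finset.univ.image (fct s u) = Finset.univ.image (fct t v)) :
    ∑ j, (1 / 3 : ℝ) • q (fct s u j) = ∑ j, (1 / 3 : ℝ) • q (fct t v j) := by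
  have h1 : ∀ (r : Fin 4 → ι), Function.Injective r → ∀ w : Fin 4,
      ∑ j, (1 / 3 : ℝ) • q (fct r w j) =
        ∑ x ∈ Finset.univ.image (fct r w), (1 / 3 : ℝ) • q x := by
    intro r hr w
    rw [Finset.sum_image]
    intro a _ b _ hab
    exact Fin.succAbove_right_injective (hr hab)
  rw [h1 s hs u, h1 t ht v, h]

open Classical in
private theorem two_sides26 {ι : Type*} [Fintype ι] {q : ι → V} {T : Finset (Fin 4 → ι)}
    (hT : Tri2 q T) {r s t : Fin 4 → ι} (hr : r ∈ T) (hs : s ∈ T) (ht : t ∈ T) (hst : s ≠ t)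
    {w u v : Fin 4} (hsr : Finset.univ.image (fct s u) = Finset.univ.image (fct r w))
    (htr : Finset.univ.image (fct t v) = Finset.univ.image (fct r w)) :
    fn (q ∘ fct r w) (q (s u)) * fn (q ∘ fct r w) (q (t v)) < 0 := by
  have hDr := hT.tri.nd r hr
  have hDs := hT.tri.nd s hs
  have hDt := hT.tri.nd t ht
  have rs : range (fct s u) ⊆ range (fct r w) := by
    rintro _ ⟨j, rfl⟩
    have : fct s u j ∈ Finset.univ.image (fct r w) := by
      rw [← hsr]; exact Finset.mem_image_of_mem _ (Finset.mem_univ _)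
    obtain ⟨k, _, hk⟩ := Finset.mem_image.1 this
    exact ⟨k, hk⟩
  have rt : range (fct t v) ⊆ range (fct r w) := by
    rintro _ ⟨j, rfl⟩
    have : fct t v j ∈ Finset.univ.image (fct r w) := by
      rw [← htr]; exact Finset.mem_image_of_mem _ (Finset.mem_univ _)
    obtain ⟨k, _, hk⟩ := Finset.mem_image.1 this
    exact ⟨k, hk⟩
  have fs := fn_bary26 hDs (fct r w) u rs
  have ft := fn_bary26 hDt (fct r w) v rt
  have hne : fn (q ∘ fct r w) (q (r w)) ≠ 0 := fn_vertex_ne hDr w
  have hs0 : fn (q ∘ fct r w) (q (s u)) ≠ 0 := by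
    intro h0
    apply hne
    rw [fs, h0, mul_zero]
  have ht0 : fn (q ∘ fct r w) (q (t v)) ≠ 0 := by
    intro h0
    apply hne
    rw [ft, h0, mul_zero]
  by_contra hcon
  have hpos : 0 < fn (q ∘ fct r w) (q (s u)) * fn (q ∘ fct r w) (q (t v)) :=
    lt_of_le_of_ne (not_lt.1 hcon) (mul_ne_zero hs0 ht0).symm
  have b1 : 0 < bary (q ∘ s) (q (t v)) u := by
    have h1 := fs (q (t v))
    rw [h1] at hpos
    have h2 : fn (q ∘ fct r w) (q (s u)) * (bary (q ∘ s) (q (t v)) u *
        fn (q ∘ fct r w) (q (s u))) =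
        bary (q ∘ s) (q (t v)) u * (fn (q ∘ fct r w) (q (s u))) ^ 2 := by ring
    rw [h2] at hpos
    by_contra hb
    have := mul_nonpos_of_nonpos_of_nonneg (not_lt.1 hb)
      (sq_nonneg (fn (q ∘ fct r w) (q (s u))))
    linarith
  have b2 : 0 < bary (q ∘ t) (q (t v)) v := by
    have h1 := ft (q (t v))
    have h2 : bary (q ∘ t) (q (t v)) v = 1 := by
      have h3 : (bary (q ∘ t) (q (t v)) v - 1) * fn (q ∘ fct r w) (q (t v)) = 0 := by
        linear_combination -h1
      rcases mul_eq_zero.1 h3 with h4 | h4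
      · linarith
      · exact absurd h4 ht0
    rw [h2]
    exact one_pos
  have e1 := open_near26 hDs u b1
  have e2 := open_near26 hDt v b2
  rw [center_eq26 (q := q) (inj26 hDs) (inj26 hDt) (hsr.trans htr.symm)] at e1
  obtain ⟨ε, h1, h2⟩ := (e1.and e2).exists
  exact Set.disjoint_left.1 (hT.tri.disj s hs t ht hst) h1 h2

open Classical in
theorem card_le {ι : Type*} [Fintype ι] {q : ι → V} {T : Finset (Fin 4 → ι)} (hT : Tri2 q T)
    (C : Finset ι) : 12 * (T.filter fun t => ∀ i, t i ∈ C).card ≤ C.card ^ 3 := by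
  set N := T.filter fun t => ∀ i, t i ∈ C with hN
  set P : Finset ((Fin 4 → ι) × Fin 4) := N ×ˢ Finset.univ with hP
  have hmaps : ∀ a ∈ P, Finset.univ.image (fct a.1 a.2) ∈ C.powersetCard 3 := by
    intro a ha
    rw [hP, Finset.mem_product, hN, Finset.mem_filter] at ha
    rw [Finset.mem_powersetCard]
    constructor
    · intro x hx
      obtain ⟨j, _, rfl⟩ := Finset.mem_image.1 hx
      exact ha.1.2 _
    · have hinj : Function.Injective (fct a.1 a.2) :=
        (inj26 (hT.tri.nd _ ha.1.1)).comp Fin.succAbove_right_injective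
      rw [Finset.card_image_of_injective _ hinj]
      simp
  have hfib : ∀ b ∈ C.powersetCard 3,
      (P.filter fun a => Finset.univ.image (fct a.1 a.2) = b).card ≤ 2 := by
    intro b _
    by_contra hcon
    obtain ⟨x, hx, y, hy, z, hz, hxy, hxz, hyz⟩ := Finset.two_lt_card.1 (not_le.1 hcon)
    have hmem : ∀ a, a ∈ P.filter (fun a => Finset.univ.image (fct a.1 a.2) = b) →
        a.1 ∈ T ∧ Finset.univ.image (fct a.1 a.2) = b := by
      intro a ha
      rw [Finset.mem_filter, hP, Finset.mem_product, hN, Finset.mem_filter] at ha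
      exact ⟨ha.1.1.1, ha.2⟩
    have hdiff : ∀ a c, a ∈ P.filter (fun a => Finset.univ.image (fct a.1 a.2) = b) →
        c ∈ P.filter (fun a => Finset.univ.image (fct a.1 a.2) = b) → a ≠ c → a.1 ≠ c.1 := by
      rintro ⟨a, u⟩ ⟨c, v⟩ ha hc hne h1
      have ha' := hmem _ ha
      have hc' := hmem _ hc
      simp only at h1 ha' hc'
      subst h1
      have huv : u ≠ v := by
        rintro rfl
        exact hne rfl
      obtain ⟨j, hj⟩ := Fin.exists_succAbove_eq huv
      have h2 : a u ∈ Finset.univ.image (fct a u) := by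
        rw [ha'.2, ← hc'.2]
        exact Finset.mem_image.2 ⟨j, Finset.mem_univ _, congrArg a hj⟩
      obtain ⟨k, _, hk⟩ := Finset.mem_image.1 h2
      have h3 : u.succAbove k = u := inj26 (hT.tri.nd _ ha'.1) hk
      exact Fin.succAbove_ne u k h3
    have hx' := hmem _ hx
    have hy' := hmem _ hy
    have hz' := hmem _ hz
    have p1 := two_sides26 hT hx'.1 hx'.1 hy'.1 (hdiff _ _ hx hy hxy)
      (w := x.2) (u := x.2) (v := y.2) rfl (hy'.2.trans hx'.2.symm)
    have p2 := two_sides26 hT hx'.1 hx'.1 hz'.1 (hdiff _ _ hx hz hxz)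
      (w := x.2) (u := x.2) (v := z.2) rfl (hz'.2.trans hx'.2.symm)
    have p3 := two_sides26 hT hx'.1 hy'.1 hz'.1 (hdiff _ _ hy hz hyz)
      (w := x.2) (u := y.2) (v := z.2) (hy'.2.trans hx'.2.symm) (hz'.2.trans hx'.2.symm)
    generalize fn (q ∘ fct x.1 x.2) (q (x.1 x.2)) = A at p1 p2 p3
    generalize fn (q ∘ fct x.1 x.2) (q (y.1 y.2)) = B at p1 p2 p3
    generalize fn (q ∘ fct x.1 x.2) (q (z.1 z.2)) = D at p1 p2 p3
    have p4 := mul_pos_of_neg_of_neg p1 p2
    have p5 : A * B * (A * D) = A ^ 2 * (B * D) := by ring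
    rw [p5] at p4
    have p6 := mul_nonpos_of_nonneg_of_nonpos (sq_nonneg A) p3.le
    linarith
  have hcard := Finset.card_le_mul_card_image_of_maps_to hmaps 2 hfib
  rw [hP, Finset.card_product, Finset.card_univ, Fintype.card_fin,
    Finset.card_powersetCard] at hcard
  have h6 : 6 * C.card.choose 3 ≤ C.card ^ 3 := by
    have h1 := Nat.descFactorial_eq_factorial_mul_choose C.card 3
    have h2 := Nat.descFactorial_le_pow C.card 3
    rw [h1] at h2
    exact h2
  omega

end Pool.Agent.Helper34.TP
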