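import Pool.Agent.Helper46.Tet.Step
import Pool.Agent.Helper46.Tet.Convert

/-!
Project TP (MP_70eb8f_co): `t(n) ≤ C n (log n)^12`, proof of helper33 (note 969).
Definitions.  Library: `Pool.Agent.Helper46.Tet` (`V = Fin 3 → ℝ`, `cv`, `ocv`, `D3`, `Dt`, `bary`,
`crs`, `nrm`, `fn`, `fct`, `Tri`).
-/

set_option autoImplicit false

namespace Pool.Agent.Helper34.TP

open Set Pool.Agent.Helper46.Tet

variable {ι : Type*}

/-- The point `d` lies in the region of the triangle `a b c`: the triangle is not degenerate, the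
tetrahedron `a b c d` has small volume and the two facets at `a` through `d` are not much larger
than `a b c`. -/
def RR (Λ δ : ℝ) (a b c d : V) : Prop :=
  crs (b - a) (c - a) ≠ 0 ∧ |D3 (b - a) (c - a) (d - a)| ≤ δ ∧
    ‖crs (b - a) (d - a)‖ ≤ Λ * ‖crs (b - a) (c - a)‖ ∧
    ‖crs (c - a) (d - a)‖ ≤ Λ * ‖crs (b - a) (c - a)‖

/-- `d` is attached to a triangle with vertices in `S`. -/
def Att (Λ δ : ℝ) (q : ι → V) (S : Finset ι) (d : ι) : Prop :=
  ∃ a ∈ S, ∃ b ∈ S, ∃ c ∈ S, RR Λ δ (q a) (q b) (q c) (q d)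

/-- A tetrahedralization whose members meet face to face. -/
structure Tri2 [Fintype ι] (q : ι → V) (T : Finset (Fin 4 → ι)) : Prop where
  tri : Tri q T
  ftf : ∀ s ∈ T, ∀ t ∈ T, ∀ y ∈ cv (q ∘ s), y ∈ cv (q ∘ t) → ∀ v, bary (q ∘ s) y v ≠ 0 →
    s v ∈ range t

/-- The size (sup norm of the cross product) of the facet of `t` opposite to the vertex `v`. -/
noncomputable def AA (q : ι → V) (t : Fin 4 → ι) (v : Fin 4) : ℝ := ‖nrm (q ∘ fct t v)‖

/-- The facet opposite to `v` is large in `t`. -/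
def Lg (Λ : ℝ) (q : ι → V) (t : Fin 4 → ι) (v : Fin 4) : Prop := ∀ u, AA q t u ≤ Λ * AA q t v

/-- `t'` is the neighbour of `t` across the facet opposite to `v`. -/
def Nbr (q : ι → V) (T : Finset (Fin 4 → ι)) (t : Fin 4 → ι) (v : Fin 4) (t' : Fin 4 → ι) : Prop :=
  t' ∈ T ∧ (∀ j, fct t v j ∈ range t') ∧
    ∃ u, fn (q ∘ fct t v) (q (t' u)) * fn (q ∘ fct t v) (q (t v)) < 0

/-- The standing properties of the configuration; `co` are the four outer vertices. -/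
structure Conf [Fintype ι] (Λ δ : ℝ) (K : ℕ) (q : ι → V) (co : Finset ι) : Prop where
  gp : ∀ t : Fin 4 → ι, Function.Injective t → Dt (q ∘ t) ≠ 0
  side : ∀ F : Fin 3 → ι, (∃ j, F j ∉ co) → ∀ x : V, fn (q ∘ F) x ≠ 0 →
    ∃ d : ι, fn (q ∘ F) (q d) * fn (q ∘ F) x < 0
  cl : ∀ S : Finset ι, S.card ≤ 4 → ∃ C : Finset ι, S ⊆ C ∧ C.card ≤ K ∧
    ∀ d, Att Λ δ q C d → d ∈ C
  co4 : co.card ≤ 4
  box : cv q ⊆ Icc (fun _ => -1) (fun _ => 7)

end Pool.Agent.Helper34.TP
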