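import Pool.Agent.Helper34.TP.Bary

/-!
A line in the direction of a coordinate axis which meets a given triangle and misses all edges and
all triangles of a family of small total size (by volume of prisms).
-/

set_option autoImplicit false

namespace Pool.Agent.Helper34.TP

open Set Pool.Agent.Helper46.Tet MeasureTheory

/-- The prism over the standard triangle. -/
private def P34 : Set V := {x | 0 ≤ x 0 ∧ 0 ≤ x 1 ∧ x 0 + x 1 ≤ 1 ∧ 0 ≤ x 2 ∧ x 2 ≤ 1}

private def Z34 (F : Fin 3 → V) (i : Fin 3) : Set V :=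
  {z | 0 ≤ z i ∧ z i ≤ 1 ∧ ∃ s : ℝ, z + s • (Pi.single i 1 : V) ∈ cv F}

private def fl34 (i : Fin 3) (v : V) : V := Function.update v i 0

private theorem Z34_eq (F : Fin 3 → V) (i : Fin 3) :
    Z34 F i = (fun x => fl34 i (F 0) + Lc (fl34 i (F 1) - fl34 i (F 0))
      (fl34 i (F 2) - fl34 i (F 0)) (Pi.single i 1) x) '' P34 := by
  ext z
  constructor
  · rintro ⟨h0, h1, s, w, hw0, hw1, hw⟩
    rw [Fin.sum_univ_three] at hw1
    refine ⟨![w 1, w 2, z i], ⟨?_, ?_, ?_, ?_, ?_⟩, ?_⟩
    · exact hw0 1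
    · exact hw0 2
    · show w 1 + w 2 ≤ 1
      have := hw0 0
      linarith
    · exact h0
    · exact h1
    · ext k
      have hk := congrFun hw k
      have hw0' : w 0 = 1 - w 1 - w 2 := by linarith
      simp only [Fin.sum_univ_three, Pi.add_apply, Pi.smul_apply, smul_eq_mul, hw0'] at hk
      by_cases hik : k = i
      · subst hik
        simp [Lc_apply, fl34]
      · rw [Pi.single_eq_of_ne hik] at hk
        simp only [Lc_apply, fl34, Pi.add_apply, Pi.smul_apply, Pi.sub_apply, smul_eq_mul,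
          Matrix.cons_val, Function.update_of_ne hik, Pi.single_eq_of_ne hik]
        linarith
  · rintro ⟨x, ⟨h0, h1, h2, h3, h4⟩, rfl⟩
    have hzi : (fl34 i (F 0) + Lc (fl34 i (F 1) - fl34 i (F 0))
      (fl34 i (F 2) - fl34 i (F 0)) (Pi.single i 1) x) i = x 2 := by
      simp [Lc_apply, fl34]
    refine ⟨?_, ?_, (1 - x 0 - x 1) * F 0 i + x 0 * F 1 i + x 1 * F 2 i - x 2,
      ![1 - x 0 - x 1, x 0, x 1], ?_, ?_, ?_⟩
    · beta_reduce; rw [hzi]; exact h3
    · beta_reduce; rw [hzi]; exact h4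
    · intro j
      fin_cases j
      · show 0 ≤ 1 - x 0 - x 1
        linarith
      · exact h0
      · exact h1
    · rw [Fin.sum_univ_three]
      show 1 - x 0 - x 1 + x 0 + x 1 = 1
      ring
    · ext k
      simp only [Fin.sum_univ_three, Pi.add_apply, Pi.smul_apply, smul_eq_mul, Matrix.cons_val]
      by_cases hik : k = i
      · subst hik
        simp only [Lc_apply, fl34, Pi.add_apply, Pi.smul_apply, Pi.sub_apply, smul_eq_mul,
          Function.update_self, Pi.single_eq_same]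
        ring
      · simp only [Lc_apply, fl34, Pi.add_apply, Pi.smul_apply, Pi.sub_apply, smul_eq_mul,
          Function.update_of_ne hik, Pi.single_eq_of_ne hik]
        ring

private theorem vol_Z34 (F : Fin 3 → V) (i : Fin 3) :
    volume (Z34 F i) = ENNReal.ofReal |nrm F i| * volume P34 := by
  rw [Z34_eq, vol_affine]
  congr 3
  fin_cases i <;> simp [D3, nrm, crs, fl34] <;> ring

private theorem P34_ne_zero : volume P34 ≠ 0 := by
  have h : Icc (0 : V) ![1/3, 1/3, 1] ⊆ P34 := by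
    intro x hx
    have h0 := hx.1
    have h1 := hx.2
    have a0 := h0 0
    have a1 := h0 1
    have a2 := h0 2
    have b0 := h1 0
    have b1 := h1 1
    have b2 := h1 2
    simp only [Pi.zero_apply, Matrix.cons_val] at a0 a1 a2 b0 b1 b2
    exact ⟨a0, a1, by linarith, a2, b2⟩
  intro h0
  have h1 := measure_mono_null h h0
  rw [Real.volume_Icc_pi, Fin.prod_univ_three] at h1
  simp only [Pi.zero_apply, Matrix.cons_val, sub_zero] at h1
  rw [← ENNReal.ofReal_mul (by norm_num), ← ENNReal.ofReal_mul (by norm_num),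
    ENNReal.ofReal_eq_zero] at h1
  norm_num at h1

private theorem P34_ne_top : volume P34 ≠ ⊤ := by
  have h : P34 ⊆ Icc (0 : V) 1 := by
    rintro x ⟨h0, h1, h2, h3, h4⟩
    constructor
    · intro j
      fin_cases j
      · exact h0
      · exact h1
      · exact h3
    · intro j
      fin_cases j
      · show x 0 ≤ 1
        linarith
      · show x 1 ≤ 1
        linarith
      · exact h4
  exact ne_top_of_le_ne_top (by rw [vol_unit]; simp) (measure_mono h)

private theorem cv_pair34 (a b : V) : cv ![a, b] = cv ![a, b, b] := by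
  rw [cv_eq_convexHull, cv_eq_convexHull]
  congr 1
  ext x
  simp

private theorem vol_edge34 (a b : V) (i : Fin 3) : volume (Z34 ![a, b, b] i) = 0 := by
  rw [vol_Z34]
  have : nrm ![a, b, b] i = 0 := by
    fin_cases i <;> simp [nrm, crs] <;> ring
  rw [this]
  simp

theorem exists_line {ι : Type*} [Fintype ι] (q : ι → V) {F : Fin 3 → V} {i : Fin 3}
    (N : Finset ((Fin 4 → ι) × Fin 4)) {Λ : ℝ} (hc : (N.card : ℝ) < Λ)
    (hN : ∀ x ∈ N, Λ * AA q x.1 x.2 ≤ |nrm F i|) (hF : nrm F i ≠ 0) :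
    ∃ z : V, (∃ s : ℝ, z + s • (Pi.single i 1 : V) ∈ cv F) ∧
      (∀ x ∈ N, ∀ s : ℝ, z + s • (Pi.single i 1 : V) ∉ cv (q ∘ fct x.1 x.2)) ∧
      ∀ a b : ι, ∀ s : ℝ, z + s • (Pi.single i 1 : V) ∉ cv ![q a, q b] := by
  classical
  by_contra hcon
  push Not at hcon
  have hΛ : 0 < Λ := lt_of_le_of_lt (Nat.cast_nonneg _) hc
  have hA : 0 < |nrm F i| := abs_pos.2 hF
  have hsub : Z34 F i ⊆ (⋃ x ∈ N, Z34 (q ∘ fct x.1 x.2) i) ∪
      ⋃ a : ι, ⋃ b : ι, Z34 ![q a, q b, q b] i := by
    rintro z ⟨h0, h1, hs⟩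
    by_cases hx : ∀ x ∈ N, ∀ s : ℝ, z + s • (Pi.single i 1 : V) ∉ cv (q ∘ fct x.1 x.2)
    · obtain ⟨a, b, s, h⟩ := hcon z hs hx
      right
      rw [mem_iUnion]
      refine ⟨a, ?_⟩
      rw [mem_iUnion]
      exact ⟨b, h0, h1, s, by rw [← cv_pair34]; exact h⟩
    · push Not at hx
      obtain ⟨x, hxN, s, h⟩ := hx
      left
      rw [mem_iUnion₂]
      exact ⟨x, hxN, h0, h1, s, h⟩
  have h1 : volume (Z34 F i) ≤ ENNReal.ofReal (N.card * (|nrm F i| / Λ)) * volume P34 := by
    calc volume (Z34 F i) ≤ volume ((⋃ x ∈ N, Z34 (q ∘ fct x.1 x.2) i) ∪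
          ⋃ a : ι, ⋃ b : ι, Z34 ![q a, q b, q b] i) := measure_mono hsub
      _ ≤ volume (⋃ x ∈ N, Z34 (q ∘ fct x.1 x.2) i) +
          volume (⋃ a : ι, ⋃ b : ι, Z34 ![q a, q b, q b] i) := measure_union_le _ _
      _ = volume (⋃ x ∈ N, Z34 (q ∘ fct x.1 x.2) i) := by
          have : volume (⋃ a : ι, ⋃ b : ι, Z34 ![q a, q b, q b] i) = 0 := by
            rw [measure_iUnion_null_iff]
            intro a
            rw [measure_iUnion_null_iff]
            intro b
            exact vol_edge34 _ _ _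
          rw [this, add_zero]
      _ ≤ ∑ x ∈ N, volume (Z34 (q ∘ fct x.1 x.2) i) := measure_biUnion_finset_le _ _
      _ ≤ ∑ _x ∈ N, ENNReal.ofReal (|nrm F i| / Λ) * volume P34 := by
          apply Finset.sum_le_sum
          intro x hx
          rw [vol_Z34]
          gcongr
          rw [le_div_iff₀ hΛ, mul_comm]
          refine le_trans ?_ (hN x hx)
          gcongr
          exact norm_le_pi_norm (nrm (q ∘ fct x.1 x.2)) i
      _ = ENNReal.ofReal (N.card * (|nrm F i| / Λ)) * volume P34 := by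
          rw [Finset.sum_const, nsmul_eq_mul, ← mul_assoc, ENNReal.ofReal_mul (by positivity),
            ENNReal.ofReal_natCast]
  rw [vol_Z34, ENNReal.mul_le_mul_iff_left P34_ne_zero P34_ne_top,
    ENNReal.ofReal_le_ofReal_iff (by positivity), ← mul_div_assoc, le_div_iff₀ hΛ, mul_comm] at h1
  have h2 := le_of_mul_le_mul_right h1 hA
  linarith

end Pool.Agent.Helper34.TP
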