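import Pool.Agent.Helper34.TP.Neighbor
import Pool.Agent.Helper34.TP.Line

/-!
A nonempty family of tetrahedra which is closed under the passage through large facets is large:
otherwise follow a vertical line through the largest facet to its last point.
-/

set_option autoImplicit false

namespace Pool.Agent.Helper34.TP

open Set Pool.Agent.Helper46.Tet Filter Topology

theorem exists_push {r : Fin 4 → V} (hD : Dt r ≠ 0) {y e : V}
    (h : ∀ v, 0 < bary r y v ∨ (0 ≤ bary r y v ∧ 0 ≤ bary r (y + e) v - bary r y v)) :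
    ∃ ε : ℝ, 0 < ε ∧ y + ε • e ∈ cv r := by
  have h1 : ∀ v, ∀ᶠ ε in 𝓝[>] (0:ℝ), 0 ≤ bary r (y + ε • e) v := by
    intro v
    rcases h v with h2 | ⟨h2, h3⟩
    · have hc : ContinuousAt (fun ε : ℝ => bary r y v + ε * (bary r (y + e) v - bary r y v)) 0 := by
        fun_prop
      have h4 : 0 < (fun ε : ℝ => bary r y v + ε * (bary r (y + e) v - bary r y v)) 0 := by
        simpa using h2
      have h5 := (hc.eventually (lt_mem_nhds h4)).filter_mono
        (nhdsWithin_le_nhds (s := Ioi (0:ℝ)))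
      filter_upwards [h5] with ε h6
      rw [bary_add]
      exact h6.le
    · filter_upwards [self_mem_nhdsWithin] with ε hε
      rw [bary_add]
      have : (0:ℝ) < ε := hε
      positivity
  obtain ⟨ε, h2, h3⟩ := ((eventually_all.2 h1).and self_mem_nhdsWithin).exists
  exact ⟨ε, h3, (mem_cv_iff hD _).2 h2⟩

/-- A point of a tetrahedron that is on no edge has at most one vanishing coordinate. -/
theorem pos_of_not_edge {ι : Type*} {q : ι → V} {t : Fin 4 → ι} (hD : Dt (q ∘ t) ≠ 0) {y : V}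
    (hy : y ∈ cv (q ∘ t)) (hedge : ∀ a b : ι, y ∉ cv ![q a, q b]) {v : Fin 4}
    (hv : bary (q ∘ t) y v = 0) {w : Fin 4} (hw : w ≠ v) : 0 < bary (q ∘ t) y w := by
  have h0 := (mem_cv_iff hD y).1 hy
  by_contra hne
  have hw0 : bary (q ∘ t) y w = 0 := le_antisymm (not_lt.1 hne) (h0 w)
  obtain ⟨a, b, hab⟩ : ∃ a b : Fin 4, ({v, w, a, b} : Finset (Fin 4)) = Finset.univ ∧
      v ≠ w ∧ a ≠ v ∧ a ≠ w ∧ b ≠ v ∧ b ≠ w ∧ a ≠ b := by
    revert hw
    clear * -
    revert v w
    decide
  obtain ⟨huniv, hvw, hav, haw, hbv, hbw, hab'⟩ := hab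
  have hsum : ∀ f : Fin 4 → ℝ, ∑ i, f i = f v + f w + f a + f b := by
    intro f
    rw [← huniv, Finset.sum_insert, Finset.sum_insert, Finset.sum_insert, Finset.sum_singleton]
    · ring
    · simp [hab']
    · simp [haw.symm, hbw.symm]
    · simp [hvw, hav.symm, hbv.symm]
  have hsum2 : ∀ f : Fin 4 → V, ∑ i, f i = f v + f w + f a + f b := by
    intro f
    rw [← huniv, Finset.sum_insert, Finset.sum_insert, Finset.sum_insert, Finset.sum_singleton]
    · abel
    · simp [hab']
    · simp [haw.symm, hbw.symm]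
    · simp [hvw, hav.symm, hbv.symm]
  apply hedge (t a) (t b)
  have h1 := bary_sum hD y
  have h2 := bary_comb hD y
  rw [hsum, hv, hw0] at h1
  rw [hsum2, hv, hw0] at h2
  refine ⟨![bary (q ∘ t) y a, bary (q ∘ t) y b], ?_, ?_, ?_⟩
  · intro i
    fin_cases i
    · exact h0 a
    · exact h0 b
  · simp only [Fin.sum_univ_two, Matrix.cons_val_zero, Matrix.cons_val_one]
    linarith
  · simp only [Fin.sum_univ_two, Matrix.cons_val_zero, Matrix.cons_val_one]
    simpa using h2

/-- The vertices of the neighbour other than the new one are those of the common facet. -/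
theorem nbr_others {ι : Type*} {q : ι → V} {t t' : Fin 4 → ι} {v u : Fin 4}
    (ht : Function.Injective t) (hj : ∀ j, fct t v j ∈ range t')
    (hu : fn (q ∘ fct t v) (q (t' u)) ≠ 0) {w : Fin 4} (hw : w ≠ u) :
    ∃ j, t' w = fct t v j := by
  choose g hg using hj
  have hgi : Function.Injective g := by
    intro a b hab
    have h1 : fct t v a = fct t v b := by rw [← hg, ← hg, hab]
    exact Fin.succAbove_right_injective (ht h1)
  have hgu : ∀ j, g j ≠ u := by
    intro j hju
    apply hu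
    rw [← hju, hg]
    exact fn_self (q ∘ fct t v) j
  have hsurj : Function.Surjective (fun j => (⟨g j, hgu j⟩ : {x : Fin 4 // x ≠ u})) := by
    apply ((Fintype.bijective_iff_injective_and_card _).2 ⟨?_, ?_⟩).2
    · intro a b hab
      exact hgi (Subtype.ext_iff.1 hab)
    · simp [Fintype.card_subtype_compl]
  obtain ⟨j, hj⟩ := hsurj ⟨w, hw⟩
  refine ⟨j, ?_⟩
  rw [← hg]
  congr 1
  exact (Subtype.ext_iff.1 hj).symm

theorem inj_of_Dt {ι : Type*} {q : ι → V} {t : Fin 4 → ι} (h : Dt (q ∘ t) ≠ 0) :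
    Function.Injective t := by
  intro a b hab
  by_contra hne
  apply h
  have h2 : q (t a) = q (t b) := by rw [hab]
  obtain ⟨j, rfl⟩ := Fin.exists_succAbove_eq hne
  have h3 := fn_self (q ∘ fct t b) j
  have h4 : (q ∘ fct t b) j = q (t b) := h2
  rw [h4] at h3
  exact (fn_fct_iff q t b).1 h3

theorem exit_contra {ι : Type*} [Fintype ι] {q : ι → V} {T : Finset (Fin 4 → ι)} {Λ : ℝ}
    (hT : Tri2 q T) {S : Finset (Fin 4 → ι)} (hS : S ⊆ T) (hne : S.Nonempty)
    (hΛ : 4 * (S.card : ℝ) < Λ)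
    (hcl : ∀ t ∈ S, ∀ v, Lg Λ q t v → ∃ t' ∈ S, Nbr q T t v t') : False := by
  classical
  have hnd : ∀ t ∈ S, Dt (q ∘ t) ≠ 0 := fun t ht => hT.tri.nd t (hS ht)
  -- the largest facet
  obtain ⟨⟨tm, vm⟩, hm, hmax⟩ := Finset.exists_max_image (S ×ˢ (Finset.univ : Finset (Fin 4)))
    (fun x => AA q x.1 x.2) (hne.product Finset.univ_nonempty)
  have htm : tm ∈ S := (Finset.mem_product.1 hm).1
  have hmax' : ∀ t ∈ S, ∀ v, AA q t v ≤ AA q tm vm := fun t ht v =>
    hmax (t, v) (Finset.mem_product.2 ⟨ht, Finset.mem_univ _⟩)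
  have hApos : 0 < AA q tm vm := norm_pos_iff.2 (nrm_fct_ne (hnd tm htm) vm)
  obtain ⟨i, hi⟩ : ∃ i, AA q tm vm ≤ |nrm (q ∘ fct tm vm) i| := by
    by_contra hcon
    push Not at hcon
    have : ‖nrm (q ∘ fct tm vm)‖ < AA q tm vm := (pi_norm_lt_iff hApos).2 fun i => hcon i
    exact lt_irrefl _ this
  set e : V := Pi.single i 1 with he
  set N := (S ×ˢ (Finset.univ : Finset (Fin 4))).filter (fun x => ¬ Lg Λ q x.1 x.2) with hN
  have hNc : (N.card : ℝ) < Λ := by
    have h1 : N.card ≤ (S ×ˢ (Finset.univ : Finset (Fin 4))).card := Finset.card_filter_le _ _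
    rw [Finset.card_product, Finset.card_univ, Fintype.card_fin] at h1
    have h2 : (N.card : ℝ) ≤ S.card * 4 := by exact_mod_cast h1
    linarith
  obtain ⟨z, ⟨s0, hs0⟩, hzN, hzE⟩ := exists_line q (F := q ∘ fct tm vm) (i := i) N hNc
    (by
      intro x hx
      rw [hN, Finset.mem_filter, Finset.mem_product] at hx
      obtain ⟨⟨hx1, _⟩, hx2⟩ := hx
      unfold Lg at hx2
      push Not at hx2
      obtain ⟨u, hu⟩ := hx2
      exact (hu.le.trans (hmax' _ hx1 u)).trans hi)
    (by
      intro h0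
      rw [h0, abs_zero] at hi
      linarith)
  -- the set of times
  set U : Set ℝ := {s | ∃ t ∈ S, z + s • e ∈ cv (q ∘ t)} with hU
  have hUne : U.Nonempty := ⟨s0, tm, htm, cv_fct_subset vm hs0⟩
  have hUcl : IsClosed U := by
    have : U = ⋃ t ∈ S, (fun s : ℝ => z + s • e) ⁻¹' cv (q ∘ t) := by
      ext s; simp [hU]
    rw [this]
    apply isClosed_biUnion_finset
    intro t _
    exact (isClosed_cv _).preimage (by fun_prop)
  have hUbd : BddAbove U := by
    have hcomp : IsCompact (⋃ t ∈ S, cv (q ∘ t)) := S.isCompact_biUnion fun t _ => isCompact_cv _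
    obtain ⟨M, hM⟩ := (hcomp.image (continuous_apply i)).bddAbove
    refine ⟨M - z i, ?_⟩
    rintro s ⟨t, ht, hst⟩
    have h1 : (z + s • e) i ≤ M := hM ⟨z + s • e, mem_biUnion ht hst, rfl⟩
    simp only [he, Pi.add_apply, Pi.smul_apply, Pi.single_eq_same, smul_eq_mul, mul_one] at h1
    linarith
  have hmem := hUcl.csSup_mem hUne hUbd
  set σ := sSup U with hσ
  set y : V := z + σ • e with hy
  have hlast : ∀ t ∈ S, ∀ ε : ℝ, 0 < ε → y + ε • e ∉ cv (q ∘ t) := by
    intro t ht ε hε hin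
    have h1 : σ + ε ∈ U := by
      refine ⟨t, ht, ?_⟩
      rw [add_smul, ← add_assoc]
      exact hin
    have h2 := le_csSup hUbd h1
    rw [← hσ] at h2
    linarith
  have hedge : ∀ a b : ι, y ∉ cv ![q a, q b] := fun a b => hzE a b σ
  obtain ⟨t, ht, hyt⟩ := hmem
  have hDt := hnd t ht
  have hbt := (mem_cv_iff hDt y).1 hyt
  -- the facet through which the line leaves
  obtain ⟨v, hv0, hv1⟩ : ∃ v, bary (q ∘ t) y v = 0 ∧ bary (q ∘ t) (y + e) v < 0 := by
    by_contra hcon
    push Not at hcon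
    obtain ⟨ε, hε, hin⟩ := exists_push hDt (y := y) (e := e) (fun v => by
      rcases (hbt v).eq_or_lt with h1 | h1
      · right
        have h2 := hcon v h1.symm
        rw [← h1]
        exact ⟨le_refl _, by linarith⟩
      · left; exact h1)
    exact hlast t ht ε hε hin
  have hyF : y ∈ cv (q ∘ fct t v) := mem_fct hDt hyt hv0
  have hLg : Lg Λ q t v := by
    by_contra hnot
    exact hzN (t, v) (by
      rw [hN, Finset.mem_filter, Finset.mem_product]
      exact ⟨⟨ht, Finset.mem_univ _⟩, hnot⟩) σ hyF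
  obtain ⟨t', ht', _, hsub, u, hu⟩ := hcl t ht v hLg
  have hDt' := hnd t' ht'
  set F := q ∘ fct t v with hF
  have huF : fn F (q (t' u)) ≠ 0 := by
    intro h0; rw [h0, zero_mul] at hu; exact lt_irrefl _ hu
  have hoth : ∀ w, w ≠ u → fn F (q (t' w)) = 0 := by
    intro w hw
    obtain ⟨j, hj⟩ := nbr_others (inj_of_Dt hDt) hsub huF hw
    rw [hj]
    exact fn_self F j
  have hkey : ∀ x : V, fn F x = bary (q ∘ t') x u * fn F (q (t' u)) := by
    intro x
    conv_lhs => rw [← bary_comb hDt' x]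
    rw [fn_comb _ _ (bary_sum hDt' x), Finset.sum_eq_single u]
    · rfl
    · intro w _ hw
      have : fn F ((q ∘ t') w) = 0 := hoth w hw
      rw [this, mul_zero]
    · intro h; exact absurd (Finset.mem_univ u) h
  have hyt' : y ∈ cv (q ∘ t') := by
    apply cv_range (q := q) (s := fct t v) (t := t') _ hyF
    rintro _ ⟨j, rfl⟩
    exact hsub j
  have hyu : bary (q ∘ t') y u = 0 := by
    have h1 := hkey y
    rw [fn_cv hyF] at h1
    rcases mul_eq_zero.1 h1.symm with h2 | h2
    · exact h2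
    · exact absurd h2 huF
  have hyu' : 0 < bary (q ∘ t') (y + e) u := by
    have h1 := hkey (y + e)
    rw [hF, fn_bary hDt, ← hF] at h1
    have h2 : bary (q ∘ t') (y + e) u * (fn F (q (t' u)) * fn F (q (t' u))) =
        bary (q ∘ t) (y + e) v * (fn F (q (t' u)) * fn F (q (t v))) := by
      linear_combination (-fn F (q (t' u))) * h1
    have h3 : 0 < bary (q ∘ t) (y + e) v * (fn F (q (t' u)) * fn F (q (t v))) :=
      mul_pos_of_neg_of_neg hv1 hu
    rw [← h2] at h3
    by_contra h4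
    have h5 := mul_nonpos_of_nonpos_of_nonneg (not_lt.1 h4) (mul_self_nonneg (fn F (q (t' u))))
    exact absurd h3 (not_lt.2 h5)
  obtain ⟨ε, hε, hin⟩ := exists_push hDt' (y := y) (e := e) (fun w => by
    by_cases hw : w = u
    · right
      rw [hw, hyu]
      exact ⟨le_refl _, by linarith⟩
    · left
      exact pos_of_not_edge hDt' hyt' hedge hyu hw)
  exact hlast t' ht' ε hε hin

end Pool.Agent.Helper34.TP
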