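import Pool.Agent.Helper34.TP.PDefs

/-!
Block TP-8.  Almost every configuration is in general position.

PROOF IN WORDS.  Countable (finite) union, so fix an injective `t`.  Induction on the number `r` of
`i : Fin 4` with `t i` of the form `inr j`.  `r = 0`: `t = inl ∘ σ` with `σ` injective, so a permutation, and
`Dt (cor ∘ σ) ≠ 0` for all 24 of them (`decide`-free: `Dt (cor ∘ σ) = ± 512`; e.g. `fin_cases` on
`Equiv.Perm (Fin 4)` is heavy, better: `Dt (r ∘ σ) = 0 ↔ Dt r = 0` through affine independence, or write
`σ 0, σ 1, σ 2, σ 3` as distinct elements of `Fin 4` and close all 256 cases by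
`simp [Dt, D3, cor]`/`norm_num`, or use `fn_fct_iff` / barycentric coordinates: if `Dt (cor ∘ σ) = 0` ...).
`r ≥ 1`: take `v` with `t v = inr j`, `F := fct t v` (does not contain `inr j`).  The event
`Dt (qx x ∘ t) = 0` is `fn (qx x ∘ F) (x j) = 0` (`fn_fct_iff`).  It is contained in the union of
 (1) `{x | nrm (qx x ∘ F) ≠ 0 ∧ fn (qx x ∘ F) (x j) = 0}`: null, since for fixed other coordinates the set
   of `x j` is a plane (`fn_eq`, `vol_plane`) [measurable; `lintegral_le_of_lmarginal_le` or
   `lintegral_eq_of_lmarginal_eq` with the set `{j}`, `lmarginal_singleton`, as in block TP-7; `qx x ∘ F` does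
   not depend on the coordinate `j`], and
 (2) `{x | nrm (qx x ∘ F) = 0}`: choose a corner `c : Fin 4` with `inl c ∉ range F` (`F` has only three
   members) and `t' := Function.update t v (inl c)`: `t'` is injective, `fct t' v = fct t v = F`, so
   `fn (qx x ∘ F) (cor c) = 0` (`fn_eq` with `nrm = 0`), i.e. `Dt (qx x ∘ t') = 0`, and `t'` has `r - 1` random
   vertices: null by induction.
-/

set_option autoImplicit false

namespace Pool.Agent.Helper34.TP

open Set Pool.Agent.Helper46.Tet MeasureTheory

/-! ### Continuity -/

private theorem crs_cont_h2 {α : Type*} [TopologicalSpace α] {f g : α → V} (hf : Continuous f)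
    (hg : Continuous g) : Continuous fun x => crs (f x) (g x) := by
  have hf' : ∀ i, Continuous fun x => f x i := fun i => (continuous_apply i).comp hf
  have hg' : ∀ i, Continuous fun x => g x i := fun i => (continuous_apply i).comp hg
  refine continuous_pi fun i => ?_
  fin_cases i
  · exact ((hf' 1).mul (hg' 2)).sub ((hf' 2).mul (hg' 1))
  · exact ((hf' 2).mul (hg' 0)).sub ((hf' 0).mul (hg' 2))
  · exact ((hf' 0).mul (hg' 1)).sub ((hf' 1).mul (hg' 0))

private theorem D3_cont_h2 {α : Type*} [TopologicalSpace α] {f g h : α → V} (hf : Continuous f)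
    (hg : Continuous g) (hh : Continuous h) : Continuous fun x => D3 (f x) (g x) (h x) := by
  have hc := crs_cont_h2 hf hg
  have hc' : ∀ i, Continuous fun x => crs (f x) (g x) i := fun i => (continuous_apply i).comp hc
  have hh' : ∀ i, Continuous fun x => h x i := fun i => (continuous_apply i).comp hh
  simp_rw [D3_eq]
  exact (((hc' 0).mul (hh' 0)).add ((hc' 1).mul (hh' 1))).add ((hc' 2).mul (hh' 2))

private theorem qx_cont_h2 {m : ℕ} (a : Fin 4 ⊕ Fin m) : Continuous fun x : Fin m → V => qx x a := by
  rcases a with i | j
  · exact continuous_const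
  · exact continuous_apply j

private theorem qx_update_h2 {m : ℕ} (x : Fin m → V) (d : Fin m) (y : V) {a : Fin 4 ⊕ Fin m}
    (ha : a ≠ Sum.inr d) : qx (Function.update x d y) a = qx x a := by
  rcases a with i | j
  · rfl
  · have hj : j ≠ d := fun h => ha (by rw [h])
    exact Function.update_of_ne hj y x

/-- For a fixed facet not using the coordinate `d`, the point `x d` is almost surely not on its
plane, unless the facet is degenerate. -/
private theorem step_null_h2 {m : ℕ} (F : Fin 3 → Fin 4 ⊕ Fin m) (d : Fin m)
    (hF : ∀ i, F i ≠ Sum.inr d) :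
    Pm m {x : Fin m → V | nrm (qx x ∘ F) ≠ 0 ∧ fn (qx x ∘ F) (x d) = 0} = 0 := by
  set A : Set (Fin m → V) := {x : Fin m → V | nrm (qx x ∘ F) ≠ 0 ∧ fn (qx x ∘ F) (x d) = 0} with hAdef
  have c1 : Continuous fun x : Fin m → V => qx x (F 1) - qx x (F 0) :=
    (qx_cont_h2 _).sub (qx_cont_h2 _)
  have c2 : Continuous fun x : Fin m → V => qx x (F 2) - qx x (F 0) :=
    (qx_cont_h2 _).sub (qx_cont_h2 _)
  have c3 : Continuous fun x : Fin m → V => x d - qx x (F 0) :=
    (continuous_apply d).sub (qx_cont_h2 _)
  have hA : MeasurableSet A := by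
    have h1 : MeasurableSet {x : Fin m → V | nrm (qx x ∘ F) ≠ 0} :=
      (isClosed_eq (crs_cont_h2 c1 c2) continuous_const).measurableSet.compl
    have h2 : MeasurableSet {x : Fin m → V | fn (qx x ∘ F) (x d) = 0} :=
      (isClosed_eq (D3_cont_h2 c1 c2 c3) continuous_const).measurableSet
    exact h1.inter h2
  have key := lintegral_le_of_lmarginal_le (μ := fun _ : Fin m => nu) {d}
    (f := A.indicator 1) (g := fun _ => 0) (measurable_one.indicator hA) measurable_const ?_
  · rw [lintegral_indicator_one hA, lintegral_zero] at key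
    exact le_antisymm key zero_le
  · rw [lmarginal_singleton, lmarginal_singleton]
    intro x
    show ∫⁻ y, A.indicator 1 (Function.update x d y) ∂nu ≤ ∫⁻ _, 0 ∂nu
    have hq : ∀ y : V, qx (Function.update x d y) ∘ F = qx x ∘ F := by
      intro y
      funext i
      exact qx_update_h2 x d y (hF i)
    rw [lintegral_zero]
    by_cases hn : nrm (qx x ∘ F) = 0
    · have e : (fun y : V => A.indicator (1 : (Fin m → V) → ENNReal) (Function.update x d y)) =
          fun _ => 0 := by
        funext y
        rw [indicator_of_notMem]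
        rintro ⟨h, -⟩
        rw [hq] at h
        exact h hn
      rw [e, lintegral_zero]
    · set B : Set V := {z : V | nrm (qx x ∘ F) 0 * z 0 + nrm (qx x ∘ F) 1 * z 1 +
        nrm (qx x ∘ F) 2 * z 2 = nrm (qx x ∘ F) 0 * (qx x ∘ F) 0 0 +
          nrm (qx x ∘ F) 1 * (qx x ∘ F) 0 1 + nrm (qx x ∘ F) 2 * (qx x ∘ F) 0 2} with hB
      have e : (fun y : V => A.indicator (1 : (Fin m → V) → ENNReal) (Function.update x d y)) =
          fun y => B.indicator 1 y := by
        funext y
        have hiff : Function.update x d y ∈ A ↔ y ∈ B := by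
          have hd : Function.update x d y d = y := by simp
          show (nrm (qx (Function.update x d y) ∘ F) ≠ 0 ∧
            fn (qx (Function.update x d y) ∘ F) (Function.update x d y d) = 0) ↔ y ∈ B
          rw [hq, hd, fn_eq, sub_eq_zero]
          exact and_iff_right hn
        by_cases hy : y ∈ B
        · rw [indicator_of_mem (hiff.mpr hy), indicator_of_mem hy]
          rfl
        · rw [indicator_of_notMem (fun h => hy (hiff.mp h)), indicator_of_notMem hy]
      rw [e]
      calc ∫⁻ y, B.indicator 1 y ∂nu ≤ nu B := lintegral_indicator_one_le _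
        _ ≤ volume B := Measure.le_iff'.mp Measure.restrict_le_self _
        _ = 0 := vol_plane hn
        _ ≤ 0 := le_rfl

private theorem Dt_cor_h2 : ∀ s : Fin 4 → Fin 4, Function.Injective s → Dt (cor ∘ s) ≠ 0 := by
  intro s hs
  have h01 : s 0 ≠ s 1 := fun h => by simpa using hs h
  have h02 : s 0 ≠ s 2 := fun h => by simpa using hs h
  have h03 : s 0 ≠ s 3 := fun h => by simpa using hs h
  have h12 : s 1 ≠ s 2 := fun h => by simpa using hs h
  have h13 : s 1 ≠ s 3 := fun h => by simpa using hs h
  have h23 : s 2 ≠ s 3 := fun h => by simpa using hs h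
  show D3 (cor (s 1) - cor (s 0)) (cor (s 2) - cor (s 0)) (cor (s 3) - cor (s 0)) ≠ 0
  generalize s 0 = a at *
  generalize s 1 = b at *
  generalize s 2 = c at *
  generalize s 3 = d at *
  fin_cases a <;> fin_cases b <;> first
    | exact absurd rfl h01
    | (fin_cases c <;> first
        | exact absurd rfl h02
        | exact absurd rfl h12
        | (fin_cases d <;> first
            | exact absurd rfl h03
            | exact absurd rfl h13
            | exact absurd rfl h23
            | (simp [D3, cor, Pi.sub_apply]; try norm_num)))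

/-- The number of random vertices. -/
private def rv_h2 {m : ℕ} (t : Fin 4 → Fin 4 ⊕ Fin m) : ℕ :=
  (Finset.univ.filter fun i => (t i).isRight = true).card

private theorem one_null_h2 {m : ℕ} : ∀ (r : ℕ) (t : Fin 4 → Fin 4 ⊕ Fin m), rv_h2 t = r →
    Function.Injective t → Pm m {x | Dt (qx x ∘ t) = 0} = 0 := by
  intro r
  induction r with
  | zero =>
    intro t ht hinj
    have hall : ∀ i, ∃ a : Fin 4, t i = Sum.inl a := by
      intro i
      rcases h : t i with a | b
      · exact ⟨a, rfl⟩
      · exfalso
        have hmem : i ∈ Finset.univ.filter fun i => (t i).isRight = true := by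
          simp [h]
        have : rv_h2 t ≠ 0 := Finset.card_ne_zero_of_mem hmem
        exact this ht
    choose s hs using hall
    have hsi : Function.Injective s := by
      intro i j h
      apply hinj
      rw [hs, hs, h]
    have he : {x : Fin m → V | Dt (qx x ∘ t) = 0} = ∅ := by
      ext x
      simp only [mem_ofPred_eq, mem_empty_iff_false, iff_false]
      have : qx x ∘ t = cor ∘ s := by
        funext i
        show qx x (t i) = cor (s i)
        rw [hs]
        rfl
      rw [this]
      exact Dt_cor_h2 s hsi
    rw [he, measure_empty]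
  | succ r ih =>
    intro t ht hinj
    have hex : ∃ v d, t v = Sum.inr d := by
      have hpos : 0 < rv_h2 t := by omega
      obtain ⟨v, hv⟩ := Finset.card_pos.mp hpos
      rw [Finset.mem_filter] at hv
      obtain ⟨d, hd⟩ := Sum.isRight_iff.mp hv.2
      exact ⟨v, d, hd⟩
    obtain ⟨v, d, hvd⟩ := hex
    have hF : ∀ i, fct t v i ≠ Sum.inr d := by
      intro i h
      have h1 : t (v.succAbove i) = t v := by rw [hvd]; exact h
      exact Fin.succAbove_ne v i (hinj h1)
    -- a free corner
    have hcor : ∃ c : Fin 4, ∀ i, fct t v i ≠ Sum.inl c := by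
      by_contra hcon
      push Not at hcon
      choose g hg using hcon
      have hgi : Function.Injective g := by
        intro a b h
        have : (Sum.inl a : Fin 4 ⊕ Fin m) = Sum.inl b := by rw [← hg a, ← hg b, h]
        exact Sum.inl_injective this
      have := Fintype.card_le_of_injective g hgi
      simp at this
    obtain ⟨c, hc⟩ := hcor
    set t' := Function.update t v (Sum.inl c) with ht'
    have hfct : fct t' v = fct t v := by
      funext i
      show t' (v.succAbove i) = t (v.succAbove i)
      rw [ht', Function.update_of_ne (Fin.succAbove_ne v i)]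
    have ht'v : t' v = Sum.inl c := by rw [ht', Function.update_self]
    have hne' : ∀ j, j ≠ v → t' j = t j := fun j hj => by rw [ht', Function.update_of_ne hj]
    have hnc : ∀ j, j ≠ v → t j ≠ Sum.inl c := by
      intro j hj
      obtain ⟨i, rfl⟩ := Fin.exists_succAbove_eq hj
      exact hc i
    have hinj' : Function.Injective t' := by
      intro a b h
      by_cases ha : a = v
      · by_cases hb : b = v
        · rw [ha, hb]
        · exfalso
          rw [ha, ht'v, hne' b hb] at h
          exact hnc b hb h.symm
      · by_cases hb : b = v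
        · exfalso
          rw [hb, ht'v, hne' a ha] at h
          exact hnc a ha h
        · rw [hne' a ha, hne' b hb] at h
          exact hinj h
    have hrv : rv_h2 t' = r := by
      have h1 : (Finset.univ.filter fun i => (t i).isRight = true) =
          insert v (Finset.univ.filter fun i => (t' i).isRight = true) := by
        ext i
        simp only [Finset.mem_filter, Finset.mem_univ, true_and, Finset.mem_insert]
        by_cases hi : i = v
        · subst hi
          simp [hvd]
        · rw [hne' i hi]
          simp [hi]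
      have h2 : v ∉ (Finset.univ.filter fun i => (t' i).isRight = true) := by
        simp [ht'v]
      have h3 : rv_h2 t = rv_h2 t' + 1 := by
        unfold rv_h2
        rw [h1, Finset.card_insert_of_notMem h2]
      omega
    have hsub : {x : Fin m → V | Dt (qx x ∘ t) = 0} ⊆
        {x | nrm (qx x ∘ fct t v) ≠ 0 ∧ fn (qx x ∘ fct t v) (x d) = 0} ∪
          {x | Dt (qx x ∘ t') = 0} := by
      intro x hx
      have hx' : Dt (qx x ∘ t) = 0 := hx
      rw [← fn_fct_iff (qx x) t v, hvd] at hx'
      by_cases hn : nrm (qx x ∘ fct t v) = 0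
      · right
        show Dt (qx x ∘ t') = 0
        rw [← fn_fct_iff (qx x) t' v, hfct, fn_eq, hn]
        simp
      · left
        exact ⟨hn, hx'⟩
    refine measure_mono_null hsub (measure_union_null (step_null_h2 _ d hF) (ih t' hrv hinj'))

theorem gp_null (m : ℕ) :
    Pm m {x | ∃ t : Fin 4 → Fin 4 ⊕ Fin m, Function.Injective t ∧ Dt (qx x ∘ t) = 0} = 0 := by
  have hsub : {x : Fin m → V | ∃ t : Fin 4 → Fin 4 ⊕ Fin m, Function.Injective t ∧
      Dt (qx x ∘ t) = 0} ⊆ ⋃ t : {t : Fin 4 → Fin 4 ⊕ Fin m // Function.Injective t},
        {x | Dt (qx x ∘ t.1) = 0} := by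
    rintro x ⟨t, ht, hx⟩
    exact mem_iUnion.mpr ⟨⟨t, ht⟩, hx⟩
  refine measure_mono_null hsub (measure_iUnion_null fun t => ?_)
  exact one_null_h2 _ t.1 rfl t.2

end Pool.Agent.Helper34.TP
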