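import Pool.Agent.Helper34.TP.PDefs

/-!
Block TP-9.  Closures from the absence of long chains; sides; the bounding box.

PROOF IN WORDS.
(closure) Let `S1 = S ∪ univ.image inl`.  Among all lists `l` with `Ch Λ δ x S1 l` take one of maximal length
(all have length `< k`: a chain of length `≥ k` has a tail of length `k`, which is a chain, since tails
of chains are chains; `[]` is a chain).  `C := S1 ∪ (l.map inr).toFinset`.  If `Att C d` and `d ∉ C` then
`d = inr d'` (all `inl c` are in `S1`) and `d' :: l` is a longer chain: contradiction.  `C.card ≤ 4 + 4 + k`.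
(side) Let `F j = inr r`, `p = x r ∈ Icc 0 1`.  `p = ∑ w_c • cor c` with
`w = ![(5 - p 0 - p 1 - p 2)/8, (p 0 + 1)/8, (p 1 + 1)/8, (p 2 + 1)/8]`, all positive, sum 1.
`0 = fn (qx x ∘ F) p = ∑ w_c * fn .. (cor c)` (`fn_self`, `fn_comb`).  Not all `fn .. (cor c)` vanish: otherwise
`fn .. z = 0` for every `z` (every `z` is an affine combination of the corners: `bary_comb`, `bary_sum`,
`fn_comb`, `Dt cor = 512 ≠ 0`).  So some are positive and some negative; take `d = inl c` of the sign
opposite to `fn .. z`.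
(box) `cv (qx x)` is the convex hull of points in `Icc (-1) 7` (`cv_eq_convexHull`, `convexHull_min`,
`convex_Icc`).
-/

set_option autoImplicit false

namespace Pool.Agent.Helper34.TP

open Set Pool.Agent.Helper46.Tet

open Classical in
theorem closure_of_no_chain {Λ δ : ℝ} {m k : ℕ} (x : Fin m → V) (S : Finset (Fin 4 ⊕ Fin m))
    (hS : S.card ≤ 4)
    (hno : ∀ l : List (Fin m), l.length = k → ¬ Ch Λ δ x (S ∪ Finset.univ.image Sum.inl) l) :
    ∃ C : Finset (Fin 4 ⊕ Fin m), S ⊆ C ∧ C.card ≤ 8 + k ∧ ∀ d, Att Λ δ (qx x) C d → d ∈ C := by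
  have hex : ∃ n, ¬ ∃ l : List (Fin m), l.length = n ∧ Ch Λ δ x (S ∪ Finset.univ.image Sum.inl) l :=
    ⟨k, by
      rintro ⟨l, h1, h2⟩
      exact hno l h1 h2⟩
  obtain ⟨n, hn1, l, hl1, hl2⟩ : ∃ n, n + 1 = Nat.find hex ∧ ∃ l : List (Fin m), l.length = n ∧
      Ch Λ δ x (S ∪ Finset.univ.image Sum.inl) l := by
    have h0 : Nat.find hex ≠ 0 := by
      intro h0
      have := Nat.find_spec hex
      rw [h0] at this
      exact this ⟨[], rfl, trivial⟩
    obtain ⟨n, hn⟩ := Nat.exists_eq_succ_of_ne_zero h0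
    refine ⟨n, hn.symm, ?_⟩
    by_contra hcon
    have := Nat.find_min' hex hcon
    omega
  have hnk : n + 1 ≤ k := by
    rw [hn1]
    refine Nat.find_min' hex ?_
    rintro ⟨l, h1, h2⟩
    exact hno l h1 h2
  have hmax := Nat.find_spec hex
  rw [← hn1] at hmax
  refine ⟨(S ∪ Finset.univ.image Sum.inl) ∪ (l.map Sum.inr).toFinset, ?_, ?_, ?_⟩
  · exact (Finset.subset_union_left).trans Finset.subset_union_left
  · have h1 : ((S ∪ Finset.univ.image (Sum.inl : Fin 4 → Fin 4 ⊕ Fin m)) ∪ (l.map Sum.inr).toFinset).card ≤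
        (S.card + (Finset.univ.image (Sum.inl : Fin 4 → Fin 4 ⊕ Fin m)).card) + (l.map (Sum.inr : Fin m → Fin 4 ⊕ Fin m)).toFinset.card :=
      (Finset.card_union_le _ _).trans (Nat.add_le_add_right (Finset.card_union_le _ _) _)
    have h2 : (Finset.univ.image (Sum.inl : Fin 4 → Fin 4 ⊕ Fin m)).card ≤ 4 := by
      refine Finset.card_image_le.trans ?_
      simp
    have h3 : (l.map (Sum.inr : Fin m → Fin 4 ⊕ Fin m)).toFinset.card ≤ n := by
      refine (List.toFinset_card_le _).trans ?_
      rw [List.length_map, hl1]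
    omega
  · intro d hd
    by_contra hdC
    apply hmax
    rcases d with c | d
    · exact absurd (Finset.mem_union_left _ (Finset.mem_union_right _
        (Finset.mem_image_of_mem _ (Finset.mem_univ c)))) hdC
    · refine ⟨d :: l, by rw [List.length_cons, hl1], ?_, ?_, hd, hl2⟩
      · exact fun h => hdC (Finset.mem_union_left _ h)
      · exact fun h => hdC (Finset.mem_union_right _ (by
          rw [List.mem_toFinset]
          exact List.mem_map_of_mem h))

open Classical in
theorem side_qx {m : ℕ} {x : Fin m → V} (hx : ∀ j, x j ∈ Icc (0 : V) 1)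
    (F : Fin 3 → Fin 4 ⊕ Fin m) (hF : ∃ j, F j ∉ Finset.univ.image (Sum.inl : Fin 4 → Fin 4 ⊕ Fin m))
    (z : V) (hz : fn (qx x ∘ F) z ≠ 0) :
    ∃ d, fn (qx x ∘ F) (qx x d) * fn (qx x ∘ F) z < 0 := by
  obtain ⟨j, hj⟩ := hF
  obtain ⟨r, hr⟩ : ∃ r, F j = Sum.inr r := by
    rcases hFj : F j with c | r
    · exact absurd (by rw [hFj]; exact Finset.mem_image_of_mem _ (Finset.mem_univ c)) hj
    · exact ⟨r, rfl⟩
  set G : Fin 3 → V := qx x ∘ F with hG
  have hp : fn G (x r) = 0 := by
    have := fn_self G j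
    rw [hG] at this ⊢
    simpa [Function.comp, hr, qx] using this
  have hx0 : ∀ i, 0 ≤ x r i := fun i => (hx r).1 i
  have hx1 : ∀ i, x r i ≤ 1 := fun i => (hx r).2 i
  set w : Fin 4 → ℝ := ![(5 - x r 0 - x r 1 - x r 2) / 8, (x r 0 + 1) / 8, (x r 1 + 1) / 8, (x r 2 + 1) / 8] with hw
  have hw0 : ∀ c, 0 < w c := by
    have a0 := hx0 0
    have a1 := hx0 1
    have a2 := hx0 2
    have b0 := hx1 0
    have b1 := hx1 1
    have b2 := hx1 2
    intro c
    fin_cases c <;> simp only [hw, Fin.zero_eta, Fin.mk_one, Fin.reduceFinMk, Matrix.cons_val] <;> linarith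
  have hw1 : ∑ c, w c = 1 := by
    simp only [Fin.sum_univ_four, hw, Matrix.cons_val]
    ring
  have hwp : ∑ c, w c • cor c = x r := by
    ext i
    fin_cases i <;>
    · simp [Fin.sum_univ_four, hw, cor]
      ring
  have hsum : ∑ c, w c * fn G (cor c) = 0 := by
    rw [← fn_comb G cor hw1, hwp, hp]
  have hDt : Dt cor ≠ 0 := by
    simp only [Dt, D3, cor, Pi.sub_apply, Matrix.cons_val]
    norm_num
  by_contra hcon
  push Not at hcon
  have h1 : ∀ c, 0 ≤ fn G (cor c) * fn G z := fun c => hcon (Sum.inl c)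
  have h2 : ∑ c, w c * (fn G (cor c) * fn G z) = 0 := by
    have : ∑ c, w c * (fn G (cor c) * fn G z) = (∑ c, w c * fn G (cor c)) * fn G z := by
      rw [Finset.sum_mul]
      exact Finset.sum_congr rfl fun c _ => by ring
    rw [this, hsum, zero_mul]
  have h3 := (Finset.sum_eq_zero_iff_of_nonneg fun c _ => mul_nonneg (hw0 c).le (h1 c)).1 h2
  have h4 : ∀ c, fn G (cor c) = 0 := by
    intro c
    have := h3 c (Finset.mem_univ c)
    rcases mul_eq_zero.1 this with h | h
    · exact absurd h (hw0 c).ne'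
    · rcases mul_eq_zero.1 h with h | h
      · exact h
      · exact absurd h hz
  apply hz
  rw [← bary_comb hDt z, fn_comb G cor (bary_sum hDt z)]
  exact Finset.sum_eq_zero fun c _ => by rw [h4 c, mul_zero]

theorem box_qx {m : ℕ} {x : Fin m → V} (hx : ∀ j, x j ∈ Icc (0 : V) 1) :
    cv (qx x) ⊆ Icc (fun _ => -1) (fun _ => 7) := by
  rw [cv_eq_convexHull]
  refine convexHull_min ?_ (convex_Icc _ _)
  rintro _ ⟨d, rfl⟩
  rcases d with c | r
  · constructor
    · intro i
      fin_cases c <;> fin_cases i <;> norm_num [qx, cor]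
    · intro i
      fin_cases c <;> fin_cases i <;> norm_num [qx, cor]
  · constructor
    · intro i
      have := (hx r).1 i
      simp only [Pi.zero_apply] at this
      simp only [qx, Sum.elim_inr]
      linarith
    · intro i
      have := (hx r).2 i
      simp only [Pi.one_apply] at this
      simp only [qx, Sum.elim_inr]
      linarith

end Pool.Agent.Helper34.TP
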