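import Pool.Agent.Helper34.TP.Prob
import Pool.Agent.Helper34.TP.GP
import Pool.Agent.Helper34.TP.Side
import Pool.Agent.Helper34.TP.Exit

/-!
Existence of a good configuration (union bound).
-/

set_option autoImplicit false

namespace Pool.Agent.Helper34.TP

open Set Pool.Agent.Helper46.Tet MeasureTheory

theorem inj_of_gp {ι : Type*} [Fintype ι] {q : ι → V} (h4 : 4 ≤ Fintype.card ι)
    (hg : ∀ t : Fin 4 → ι, Function.Injective t → Dt (q ∘ t) ≠ 0) : Function.Injective q := by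
  classical
  intro a b hab
  by_contra hne
  obtain ⟨S, hS, hSc⟩ := Finset.exists_superset_card_eq (s := ({a, b} : Finset ι)) (n := 4)
    (by rw [Finset.card_pair hne]; norm_num) h4
  set e := S.equivFinOfCardEq hSc with he
  have hinj : Function.Injective (fun i => ((e.symm i : S) : ι)) := by
    intro i j hij
    exact e.symm.injective (Subtype.ext hij)
  have h1 := hg _ hinj
  have h2 : Function.Injective (q ∘ fun i => ((e.symm i : S) : ι)) := by
    have h3 : Dt ((id : V → V) ∘ (q ∘ fun i => ((e.symm i : S) : ι))) ≠ 0 := h1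
    exact inj_of_Dt h3
  have ha : a ∈ S := hS (by simp)
  have hb : b ∈ S := hS (by simp)
  have h3 : e ⟨a, ha⟩ = e ⟨b, hb⟩ := by
    apply h2
    simp only [Function.comp, Equiv.symm_apply_apply]
    exact hab
  have h4 := e.injective h3
  exact hne (Subtype.ext_iff.1 h4)

theorem exists_enum4 {ι : Type*} [DecidableEq ι] (i0 : ι) (S : Finset ι) (hS : S.card ≤ 4) :
    ∃ t : Fin 4 → ι, S ⊆ Finset.univ.image t := by
  classical
  refine ⟨fun i => if h : (i : ℕ) < S.card then ((S.equivFin.symm ⟨i, h⟩ : S) : ι) else i0, ?_⟩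
  intro a ha
  rw [Finset.mem_image]
  set j := S.equivFin ⟨a, ha⟩ with hj
  refine ⟨⟨j, j.2.trans_le hS⟩, Finset.mem_univ _, ?_⟩
  have h1 : ((⟨j, j.2.trans_le hS⟩ : Fin 4) : ℕ) < S.card := j.2
  simp only [j.2, dif_pos]
  have : S.equivFin.symm ⟨(j : ℕ), j.2⟩ = ⟨a, ha⟩ := by
    have h2 : (⟨(j : ℕ), j.2⟩ : Fin S.card) = j := rfl
    rw [h2, hj, Equiv.symm_apply_apply]
  rw [this]

open Classical in
theorem exists_conf {m k : ℕ} {Λ δ : ℝ} (hΛ : 0 ≤ Λ) (hδ : 0 ≤ δ)
    (h : ((m : ℝ) + 4) ^ 4 * ((m : ℝ) ^ k * (((8 + k : ℕ) : ℝ) ^ 3 * (8 * Λ ^ 2 * δ)) ^ k) < 1) :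
    ∃ x : Fin m → V, Function.Injective (qx x) ∧
      Conf Λ δ (8 + k) (qx x) (Finset.univ.image (Sum.inl : Fin 4 → Fin 4 ⊕ Fin m)) := by
  set B1 : Set (Fin m → V) :=
    {x | ∃ t : Fin 4 → Fin 4 ⊕ Fin m, Function.Injective t ∧ Dt (qx x ∘ t) = 0} with hB1
  set B2 : Set (Fin m → V) := {x | ¬ ∀ j, x j ∈ Icc (0 : V) 1} with hB2
  set B3 : Set (Fin m → V) := ⋃ t : Fin 4 → Fin 4 ⊕ Fin m, ⋃ l : Fin k → Fin m,
    {x | Ch Λ δ x (Finset.univ.image t ∪ Finset.univ.image Sum.inl) (List.ofFn l)} with hB3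
  have h1 : Pm m B1 = 0 := gp_null m
  have h2 : Pm m B2 = 0 := by
    have h3 : ∀ᵐ x ∂(Pm m), ∀ j, x j ∈ Icc (0 : V) 1 := by
      rw [ae_all_iff]
      intro j
      have h4 : ∀ᵐ y ∂nu, y ∈ Icc (0 : V) 1 := ae_restrict_mem measurableSet_Icc
      exact (Measure.tendsto_eval_ae_ae (μ := fun _ : Fin m => nu) (i := j)).eventually h4
    exact h3
  have h3 : Pm m B3 < 1 := by
    set ρ : ℝ := ((8 + k : ℕ) : ℝ) ^ 3 * (8 * Λ ^ 2 * δ) with hρ
    have hρ0 : 0 ≤ ρ := by positivity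
    have h5 : ∀ (t : Fin 4 → Fin 4 ⊕ Fin m) (l : Fin k → Fin m),
        Pm m {x | Ch Λ δ x (Finset.univ.image t ∪ Finset.univ.image Sum.inl) (List.ofFn l)} ≤
          (ENNReal.ofReal ρ) ^ k := by
      intro t l
      have h6 := prob_chain hΛ hδ (K := 8 + k) (Finset.univ.image t ∪ Finset.univ.image Sum.inl)
        (List.ofFn l) (by
          have h7 : (Finset.univ.image t).card ≤ 4 := Finset.card_image_le.trans (by simp)
          have h8 : (Finset.univ.image (Sum.inl : Fin 4 → Fin 4 ⊕ Fin m)).card ≤ 4 :=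
            Finset.card_image_le.trans (by simp)
          have h9 := Finset.card_union_le (Finset.univ.image t)
            (Finset.univ.image (Sum.inl : Fin 4 → Fin 4 ⊕ Fin m))
          rw [List.length_ofFn]
          omega)
      rw [List.length_ofFn] at h6
      exact h6
    clear_value ρ
    calc Pm m B3 ≤ ∑ t : Fin 4 → Fin 4 ⊕ Fin m, Pm m (⋃ l : Fin k → Fin m,
          {x | Ch Λ δ x (Finset.univ.image t ∪ Finset.univ.image Sum.inl) (List.ofFn l)}) :=
          measure_iUnion_fintype_le _ _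
      _ ≤ ∑ t : Fin 4 → Fin 4 ⊕ Fin m, ∑ l : Fin k → Fin m, Pm m
          {x | Ch Λ δ x (Finset.univ.image t ∪ Finset.univ.image Sum.inl) (List.ofFn l)} :=
          Finset.sum_le_sum fun t _ => measure_iUnion_fintype_le _ _
      _ ≤ ∑ t : Fin 4 → Fin 4 ⊕ Fin m, ∑ l : Fin k → Fin m, (ENNReal.ofReal ρ) ^ k :=
          Finset.sum_le_sum fun t _ => Finset.sum_le_sum fun l _ => h5 t l
      _ = ENNReal.ofReal (((m : ℝ) + 4) ^ 4 * ((m : ℝ) ^ k * ρ ^ k)) := by
          rw [Finset.sum_const, Finset.sum_const, Finset.card_univ, Finset.card_univ,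
            Fintype.card_fun, Fintype.card_fun, Fintype.card_sum, Fintype.card_fin,
            Fintype.card_fin, Fintype.card_fin, nsmul_eq_mul, nsmul_eq_mul,
            ENNReal.ofReal_mul (by positivity), ENNReal.ofReal_mul (by positivity),
            ENNReal.ofReal_pow hρ0]
          congr 1
          · rw [ENNReal.ofReal_pow (by positivity),
              show ((m : ℝ) + 4) = ((4 + m : ℕ) : ℝ) by push_cast; ring, ENNReal.ofReal_natCast]
            push_cast
            rfl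
          · congr 1
            rw [ENNReal.ofReal_pow (by positivity), ENNReal.ofReal_natCast]
            push_cast
            rfl
      _ < 1 := by
          rw [← ENNReal.ofReal_one]
          exact (ENNReal.ofReal_lt_ofReal_iff one_pos).2 h
  have h4 : Pm m (B1 ∪ B2 ∪ B3) < 1 := by
    calc Pm m (B1 ∪ B2 ∪ B3) ≤ Pm m (B1 ∪ B2) + Pm m B3 := measure_union_le _ _
      _ ≤ Pm m B1 + Pm m B2 + Pm m B3 := by gcongr; exact measure_union_le _ _
      _ < 1 := by rw [h1, h2, zero_add, zero_add]; exact h3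
  obtain ⟨x, hx⟩ : ∃ x, x ∉ B1 ∪ B2 ∪ B3 := by
    by_contra hcon
    push Not at hcon
    have : B1 ∪ B2 ∪ B3 = univ := eq_univ_of_forall hcon
    rw [this, measure_univ] at h4
    exact lt_irrefl _ h4
  have hx1 : ∀ t : Fin 4 → Fin 4 ⊕ Fin m, Function.Injective t → Dt (qx x ∘ t) ≠ 0 := by
    intro t ht h0
    exact hx (Or.inl (Or.inl ⟨t, ht, h0⟩))
  have hx2 : ∀ j, x j ∈ Icc (0 : V) 1 := by
    by_contra hcon
    exact hx (Or.inl (Or.inr hcon))
  have hx3 : ∀ (t : Fin 4 → Fin 4 ⊕ Fin m) (l : Fin k → Fin m),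
      ¬ Ch Λ δ x (Finset.univ.image t ∪ Finset.univ.image Sum.inl) (List.ofFn l) := by
    intro t l hc
    exact hx (Or.inr (mem_iUnion.2 ⟨t, mem_iUnion.2 ⟨l, hc⟩⟩))
  refine ⟨x, inj_of_gp (by simp) hx1, ⟨hx1, ?_, ?_, ?_, box_qx hx2⟩⟩
  · intro F hF z hz
    exact side_qx hx2 F hF z hz
  · intro S hS
    obtain ⟨t, ht⟩ := exists_enum4 (Sum.inl 0) S hS
    obtain ⟨C, hC1, hC2, hC3⟩ := closure_of_no_chain (Λ := Λ) (δ := δ) (k := k) x
      (Finset.univ.image t) (Finset.card_image_le.trans (by simp)) (by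
        intro l hl
        have h5 : List.ofFn (fun i : Fin k => l.get (i.cast hl.symm)) = l := by
          subst hl
          exact List.ofFn_get l
        rw [← h5]
        exact hx3 t _)
    exact ⟨C, ht.trans hC1, hC2, hC3⟩
  · exact Finset.card_image_le.trans (by simp)

end Pool.Agent.Helper34.TP
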