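import Pool.Agent.Helper34.TP.Bary

/-!
Block TP-5.  The number of tetrahedra of volume `> δ/6` is at most `13824 / δ`.

PROOF IN WORDS.  `S := T.filter (δ < |Dt (q ∘ t)|)`.  `Tri.lm`, `Lm.vol_union` (Helper46/Tet/Plane.lean):
`∑_{t ∈ S} volume (cv (q ∘ t)) = volume (⋃_{t ∈ S} cv (q ∘ t)) ≤ volume (Icc (-1) 7) = 512`
(`cv_comp_subset`, `hbox`, `Real.volume_Icc_pi`), and every term is at least
`ENNReal.ofReal (|Dt (q ∘ t)| / 27) ≥ ENNReal.ofReal (δ / 27)` (`vol_cv_ge`).  So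
`S.card * (δ / 27) ≤ 512`.
-/

set_option autoImplicit false

namespace Pool.Agent.Helper34.TP

open Set Pool.Agent.Helper46.Tet MeasureTheory

open Classical in
theorem card_nonsmall {ι : Type*} [Fintype ι] {q : ι → V} {T : Finset (Fin 4 → ι)}
    (hT : Tri q T) (hbox : cv q ⊆ Icc (fun _ => -1) (fun _ => 7)) {δ : ℝ} (hδ : 0 < δ) :
    ((T.filter fun t => δ < |Dt (q ∘ t)|).card : ℝ) * δ ≤ 13824 := by
  set S := T.filter fun t => δ < |Dt (q ∘ t)| with hSdef
  have hS : S ⊆ T := Finset.filter_subset _ _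
  have h1 := hT.lm.vol_union hS
  have hbv : volume (Icc (fun _ => -1 : V) (fun _ => 7)) = ENNReal.ofReal 512 := by
    rw [Real.volume_Icc_pi, Fin.prod_univ_three, ← ENNReal.ofReal_mul (by norm_num),
      ← ENNReal.ofReal_mul (by norm_num)]
    norm_num
  have h2 : volume (⋃ t ∈ S, cv (q ∘ t)) ≤ ENNReal.ofReal 512 := by
    rw [← hbv]
    apply measure_mono
    refine iUnion_subset fun t => iUnion_subset fun _ => ?_
    exact (cv_comp_subset q t).trans hbox
  have h3 : ∑ _t ∈ S, ENNReal.ofReal (δ / 27) ≤ ∑ t ∈ S, volume (cv (q ∘ t)) := by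
    refine Finset.sum_le_sum fun t ht => le_trans ?_ (vol_cv_ge _)
    refine ENNReal.ofReal_le_ofReal ?_
    have := (Finset.mem_filter.1 ht).2
    linarith
  rw [Finset.sum_const, nsmul_eq_mul, ← h1] at h3
  have h4 := h3.trans h2
  rw [← ENNReal.ofReal_natCast, ← ENNReal.ofReal_mul (Nat.cast_nonneg _)] at h4
  have h5 := (ENNReal.ofReal_le_ofReal_iff (by norm_num : (0:ℝ) ≤ 512)).1 h4
  linarith

end Pool.Agent.Helper34.TP
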