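import Pool.Agent.Helper34.TP.Attach
import Pool.Agent.Helper34.TP.Exit
import Pool.Agent.Helper34.TP.Count
import Pool.Agent.Helper34.TP.Nonsmall

/-!
The number of tetrahedra of a tetrahedralization of a configuration with small closures.
-/

set_option autoImplicit false

namespace Pool.Agent.Helper34.TP

open Set Pool.Agent.Helper46.Tet

theorem range_sub_of_fct {ι : Type*} {t : Fin 4 → ι} {v : Fin 4} {C : Finset ι}
    (hv : t v ∈ C) (hF : ∀ j, fct t v j ∈ C) : ∀ i, t i ∈ C := by
  intro i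
  by_cases h : i = v
  · rw [h]; exact hv
  · obtain ⟨j, rfl⟩ := Fin.exists_succAbove_eq h
    exact hF j

theorem det_bound {ι : Type*} [Fintype ι] {q : ι → V} {T : Finset (Fin 4 → ι)} {Λ δ : ℝ} {K : ℕ}
    {co : Finset ι} (hT : Tri2 q T) (hC : Conf Λ δ K q co) (hδ : 0 < δ) (hK : 1 ≤ K)
    (hΛ : (K : ℝ) ^ 3 ≤ Λ) : (T.card : ℝ) ≤ (1 + 13824 / δ) * ((K : ℝ) ^ 3 / 12 + 1) := by
  classical
  have hcl : ∀ S : Finset ι, ∃ C : Finset ι, S.card ≤ 4 → (S ⊆ C ∧ C.card ≤ K ∧
      ∀ d, Att Λ δ q C d → d ∈ C) := by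
    intro S
    by_cases h : S.card ≤ 4
    · obtain ⟨C, hC⟩ := hC.cl S h
      exact ⟨C, fun _ => hC⟩
    · exact ⟨∅, fun h' => absurd h' h⟩
  choose Cl hCl using hcl
  have him : ∀ t : Fin 4 → ι, (Finset.univ.image t).card ≤ 4 := by
    intro t
    exact Finset.card_image_le.trans (by simp)
  set NS := T.filter (fun t => δ < |Dt (q ∘ t)|) with hNS
  set Fam : Finset (Finset ι) := insert (Cl co) (NS.image fun t => Cl (Finset.univ.image t))
    with hFam
  have hFcard : ∀ C ∈ Fam, C.card ≤ K ∧ ∀ d, Att Λ δ q C d → d ∈ C := by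
    intro C hC'
    rw [hFam, Finset.mem_insert, Finset.mem_image] at hC'
    rcases hC' with rfl | ⟨t, _, rfl⟩
    · exact (hCl co hC.co4).2
    · exact (hCl _ (him t)).2
  set Bad := T.filter (fun t => |Dt (q ∘ t)| ≤ δ ∧ ∀ C ∈ Fam, ¬ ∀ i, t i ∈ C) with hBad
  -- the passage through large facets
  have hstep : ∀ t ∈ Bad, ∀ v, Lg Λ q t v → ∃ t' ∈ Bad, Nbr q T t v t' := by
    intro t ht v hv
    rw [hBad, Finset.mem_filter] at ht
    obtain ⟨htT, hts, htF⟩ := ht
    have hD := hT.tri.nd t htT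
    have hatt : ∀ C ∈ Fam, ¬ ∀ j, fct t v j ∈ C := by
      intro C hC' hj
      exact htF C hC' (range_sub_of_fct (attach hD hts hv (hFcard C hC').2 hj) hj)
    have hco : ∃ j, fct t v j ∉ co := by
      by_contra hcon
      push Not at hcon
      exact hatt (Cl co) (Finset.mem_insert_self _ _) fun j => (hCl co hC.co4).1 (hcon j)
    have hfn : fn (q ∘ fct t v) (q (t v)) ≠ 0 := by
      intro h0
      exact hD ((fn_fct_iff q t v).1 h0)
    obtain ⟨d, hd⟩ := hC.side (fct t v) hco (q (t v)) hfn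
    obtain ⟨t', ht'⟩ := exists_nbr hT htT v hd
    refine ⟨t', ?_, ht'⟩
    rw [hBad, Finset.mem_filter]
    refine ⟨ht'.1, ?_, ?_⟩
    · by_contra hcon
      have hmem : t' ∈ NS := by
        rw [hNS, Finset.mem_filter]
        exact ⟨ht'.1, not_le.1 hcon⟩
      apply hatt (Cl (Finset.univ.image t'))
        (Finset.mem_insert_of_mem (Finset.mem_image_of_mem _ hmem))
      intro j
      apply (hCl _ (him t')).1
      obtain ⟨k, hk⟩ := ht'.2.1 j
      rw [← hk]
      exact Finset.mem_image_of_mem _ (Finset.mem_univ _)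
    · intro C hC' hi
      apply hatt C hC'
      intro j
      obtain ⟨k, hk⟩ := ht'.2.1 j
      rw [← hk]
      exact hi k
  have hBe : Bad = ∅ := by
    by_contra hne
    have hne' : Bad.Nonempty := Finset.nonempty_iff_ne_empty.2 hne
    set P := Bad.powerset.filter (fun S => S.Nonempty ∧
      ∀ t ∈ S, ∀ v, Lg Λ q t v → ∃ t' ∈ S, Nbr q T t v t') with hP
    have hPne : P.Nonempty := ⟨Bad, by
      rw [hP, Finset.mem_filter]
      exact ⟨Finset.mem_powerset_self _, hne', hstep⟩⟩
    obtain ⟨S, hS, hmin⟩ := Finset.exists_min_image P Finset.card hPne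
    rw [hP, Finset.mem_filter, Finset.mem_powerset] at hS
    obtain ⟨hSB, hSne, hScl⟩ := hS
    obtain ⟨t0, ht0⟩ := hSne
    set C := Cl (Finset.univ.image t0) with hCdef
    obtain ⟨hC1, hC2, hC3⟩ := hCl _ (him t0)
    have hall : ∀ t ∈ S, ∀ i, t i ∈ C := by
      by_contra hcon
      push Not at hcon
      obtain ⟨t1, ht1, i1, hi1⟩ := hcon
      set S2 := S.filter (fun t => ¬ ∀ i, t i ∈ C) with hS2
      have h2 : S2 ∈ P := by
        rw [hP, Finset.mem_filter, Finset.mem_powerset]
        refine ⟨(Finset.filter_subset _ _).trans hSB, ⟨t1, ?_⟩, ?_⟩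
        · rw [hS2, Finset.mem_filter]
          exact ⟨ht1, fun h => hi1 (h i1)⟩
        · intro t ht v hv
          rw [hS2, Finset.mem_filter] at ht
          obtain ⟨t', ht', hn⟩ := hScl t ht.1 v hv
          refine ⟨t', ?_, hn⟩
          rw [hS2, Finset.mem_filter]
          refine ⟨ht', fun hi => ht.2 ?_⟩
          have hj : ∀ j, fct t v j ∈ C := by
            intro j
            obtain ⟨k, hk⟩ := hn.2.1 j
            rw [← hk]
            exact hi k
          have htB := hSB ht.1
          rw [hBad, Finset.mem_filter] at htB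
          exact range_sub_of_fct (attach (hT.tri.nd t htB.1) htB.2.1 hv hC3 hj) hj
      have h3 := hmin S2 h2
      have h4 : S2.card < S.card := by
        apply Finset.card_lt_card
        refine ⟨Finset.filter_subset _ _, fun hsub => ?_⟩
        have h5 := hsub ht0
        rw [hS2, Finset.mem_filter] at h5
        apply h5.2
        intro i
        exact hC1 (Finset.mem_image_of_mem _ (Finset.mem_univ _))
      omega
    have hST : S ⊆ T := hSB.trans (Finset.filter_subset _ _)
    have hSc : 12 * S.card ≤ K ^ 3 := by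
      have h1 := card_le hT C
      have h2 : S ⊆ T.filter fun t => ∀ i, t i ∈ C := by
        intro t ht
        rw [Finset.mem_filter]
        exact ⟨hST ht, hall t ht⟩
      have h3 := Finset.card_le_card h2
      have h4 : C.card ^ 3 ≤ K ^ 3 := Nat.pow_le_pow_left hC2 3
      calc 12 * S.card ≤ 12 * (T.filter fun t => ∀ i, t i ∈ C).card := by gcongr
        _ ≤ C.card ^ 3 := h1
        _ ≤ K ^ 3 := h4
    have hSc' : 12 * (S.card : ℝ) ≤ (K : ℝ) ^ 3 := by exact_mod_cast hSc
    have hK' : (1 : ℝ) ≤ (K : ℝ) ^ 3 := by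
      have : (1 : ℝ) ≤ K := by exact_mod_cast hK
      exact one_le_pow₀ this
    exact exit_contra hT hST ⟨t0, ht0⟩ (Λ := Λ) (by linarith) hScl
  -- the count
  have hNSc : (NS.card : ℝ) ≤ 13824 / δ := by
    rw [le_div_iff₀ hδ]
    exact card_nonsmall hT.tri hC.box hδ
  have hsub : T ⊆ NS ∪ Fam.biUnion fun C => T.filter fun t => ∀ i, t i ∈ C := by
    intro t ht
    by_cases h : δ < |Dt (q ∘ t)|
    · exact Finset.mem_union_left _ (by rw [hNS, Finset.mem_filter]; exact ⟨ht, h⟩)
    · apply Finset.mem_union_right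
      by_contra hcon
      have : t ∈ Bad := by
        rw [hBad, Finset.mem_filter]
        refine ⟨ht, not_lt.1 h, fun C hC' hi => hcon ?_⟩
        rw [Finset.mem_biUnion]
        exact ⟨C, hC', Finset.mem_filter.2 ⟨ht, hi⟩⟩
      rw [hBe] at this
      exact absurd this (Finset.notMem_empty _)
  have hFam1 : Fam.card ≤ NS.card + 1 := by
    calc Fam.card ≤ (NS.image fun t => Cl (Finset.univ.image t)).card + 1 :=
          Finset.card_insert_le _ _
      _ ≤ NS.card + 1 := by gcongr; exact Finset.card_image_le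
  have hbi : ((Fam.biUnion fun C => T.filter fun t => ∀ i, t i ∈ C).card : ℝ) ≤
      (NS.card + 1) * ((K : ℝ) ^ 3 / 12) := by
    calc ((Fam.biUnion fun C => T.filter fun t => ∀ i, t i ∈ C).card : ℝ)
        ≤ ((∑ C ∈ Fam, (T.filter fun t => ∀ i, t i ∈ C).card : ℕ) : ℝ) := by
          exact_mod_cast Finset.card_biUnion_le
      _ = ∑ C ∈ Fam, ((T.filter fun t => ∀ i, t i ∈ C).card : ℝ) := by push_cast; rfl
      _ ≤ ∑ C ∈ Fam, (K : ℝ) ^ 3 / 12 := by
          apply Finset.sum_le_sum
          intro C hC'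
          have h1 := card_le hT C
          have h2 : C.card ^ 3 ≤ K ^ 3 := Nat.pow_le_pow_left (hFcard C hC').1 3
          have h3 : 12 * ((T.filter fun t => ∀ i, t i ∈ C).card : ℝ) ≤ (K : ℝ) ^ 3 := by
            exact_mod_cast h1.trans h2
          linarith
      _ = Fam.card * ((K : ℝ) ^ 3 / 12) := by rw [Finset.sum_const, nsmul_eq_mul]
      _ ≤ (NS.card + 1) * ((K : ℝ) ^ 3 / 12) := by
          gcongr
          exact_mod_cast hFam1
  have hTc : (T.card : ℝ) ≤ NS.card + (Fam.biUnion fun C => T.filter fun t => ∀ i, t i ∈ C).card := by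
    exact_mod_cast (Finset.card_le_card hsub).trans (Finset.card_union_le _ _)
  have hK0 : (0:ℝ) ≤ (K : ℝ) ^ 3 / 12 := by positivity
  nlinarith

end Pool.Agent.Helper34.TP
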