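import Pool.Agent.Helper34.TP.Graph
import Pool.Agent.Helper34.TP.Convert2
import Pool.Agent.Helper34.TP.ExistsConf

/-!
The main theorem: for every `n ≥ 4` there are `n` points in general position in space all of whose
tetrahedralizations have at most `10 ^ 19 * n * (log n) ^ 12` members.
-/

set_option autoImplicit false

namespace Pool.Agent.Helper34.TP

open Set Pool.Agent.Helper46.Tet

theorem params {n m : ℕ} (hn : n = m + 4) :
    ((m : ℝ) + 4) ^ 4 * ((m : ℝ) ^ (4 * (Nat.log 2 n + 1)) *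
      (((8 + 4 * (Nat.log 2 n + 1) : ℕ) : ℝ) ^ 3 *
        (8 * (((8 + 4 * (Nat.log 2 n + 1) : ℕ) : ℝ) ^ 3) ^ 2 *
          (1 / (16 * ((8 + 4 * (Nat.log 2 n + 1) : ℕ) : ℝ) ^ 9 * n)))) ^
            (4 * (Nat.log 2 n + 1))) < 1 := by
  set k := 4 * (Nat.log 2 n + 1) with hk
  have hK : (0 : ℝ) < ((8 + k : ℕ) : ℝ) := by positivity
  have hn0 : (0 : ℝ) < n := by rw [hn]; positivity
  have hmn : ((m : ℝ) + 4) = n := by rw [hn]; push_cast; ring
  have h1 : ((8 + k : ℕ) : ℝ) ^ 3 * (8 * (((8 + k : ℕ) : ℝ) ^ 3) ^ 2 *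
      (1 / (16 * ((8 + k : ℕ) : ℝ) ^ 9 * n))) = 1 / (2 * n) := by
    field_simp
    ring
  rw [h1, hmn, ← mul_pow]
  have h2 : (m : ℝ) * (1 / (2 * n)) ≤ 1 / 2 := by
    rw [mul_one_div, div_le_div_iff₀ (by positivity) (by norm_num)]
    linarith
  have h3 : n ^ 4 < 2 ^ k := by
    rw [hk, mul_comm, pow_mul]
    exact Nat.pow_lt_pow_left (Nat.lt_pow_succ_log_self (by norm_num) n) (by norm_num)
  have h3' : (n : ℝ) ^ 4 < 2 ^ k := by exact_mod_cast h3
  calc (n : ℝ) ^ 4 * ((m : ℝ) * (1 / (2 * n))) ^ k ≤ (n : ℝ) ^ 4 * (1 / 2) ^ k := by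
        gcongr
    _ < 2 ^ k * (1 / 2) ^ k := by gcongr
    _ = 1 := by rw [← mul_pow]; norm_num

theorem K_le {n : ℕ} (h4 : 4 ≤ n) :
    ((8 + 4 * (Nat.log 2 n + 1) : ℕ) : ℝ) ≤ 15 * Real.log n := by
  have hn0 : (0 : ℝ) < n := by exact_mod_cast (by omega : 0 < n)
  have hl : 0.6931471803 < Real.log 2 := Real.log_two_gt_d9
  have h1 : (Nat.log 2 n : ℝ) * Real.log 2 ≤ Real.log n := by
    rw [← Real.log_pow]
    apply Real.log_le_log (by positivity)
    exact_mod_cast Nat.pow_log_le_self 2 (by omega : n ≠ 0)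
  have h2 : 2 * Real.log 2 ≤ Real.log n := by
    have h3 : (2 : ℝ) * Real.log 2 = Real.log (2 ^ 2) := by rw [Real.log_pow]; push_cast; ring
    rw [h3]
    apply Real.log_le_log (by positivity)
    have : (4 : ℝ) ≤ n := by exact_mod_cast h4
    linarith
  have h3 : (12 + 4 * (Nat.log 2 n : ℝ)) * Real.log 2 ≤ 10 * Real.log n := by linarith
  have h4 : 0 ≤ Real.log n := by linarith
  have h5 : 10 * Real.log n ≤ 15 * Real.log n * Real.log 2 := by nlinarith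
  have h6 : (12 + 4 * (Nat.log 2 n : ℝ)) * Real.log 2 ≤ (15 * Real.log n) * Real.log 2 :=
    h3.trans h5
  have h7 := le_of_mul_le_mul_right h6 (by linarith)
  push_cast
  linarith

theorem final {n : ℕ} {K c : ℝ} (hn : 4 ≤ n) (hK : 20 ≤ K) (hKl : K ≤ 15 * Real.log n)
    (hc : c ≤ (1 + 13824 / (1 / (16 * K ^ 9 * n))) * (K ^ 3 / 12 + 1)) :
    c ≤ 10 ^ 19 * n * Real.log n ^ 12 := by
  have hn1 : (1 : ℝ) ≤ n := by exact_mod_cast (by omega : 1 ≤ n)
  have hl : 0 ≤ Real.log n := by linarith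
  have h1 : 1 + 13824 / (1 / (16 * K ^ 9 * n)) ≤ 221185 * (K ^ 9 * n) := by
    rw [div_div_eq_mul_div, div_one]
    have h2 : (1 : ℝ) ≤ K ^ 9 := one_le_pow₀ (by linarith)
    have h3 : (1 : ℝ) ≤ K ^ 9 * n := one_le_mul_of_one_le_of_one_le h2 hn1
    nlinarith
  have h2 : K ^ 3 / 12 + 1 ≤ K ^ 3 / 10 := by
    have h3 : (20 : ℝ) ^ 3 ≤ K ^ 3 := by gcongr
    linarith
  have h3 : K ^ 12 ≤ (15 * Real.log n) ^ 12 := by
    gcongr
  calc c ≤ (1 + 13824 / (1 / (16 * K ^ 9 * n))) * (K ^ 3 / 12 + 1) := hc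
    _ ≤ (221185 * (K ^ 9 * n)) * (K ^ 3 / 10) := by
        have : (0 : ℝ) ≤ K := by linarith
        gcongr
    _ = 22118.5 * n * K ^ 12 := by ring
    _ ≤ 22118.5 * n * (15 * Real.log n) ^ 12 := by gcongr
    _ = (22118.5 * 15 ^ 12) * n * Real.log n ^ 12 := by ring
    _ ≤ 10 ^ 19 * n * Real.log n ^ 12 := by
        gcongr
        norm_num

/-- The main theorem. -/
theorem main (n : ℕ) (h4 : 4 ≤ n) : ∃ P : Finset E3, P.card = n ∧
    (∀ S : Finset E3, S ⊆ P → S.card = 4 →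
      AffineIndependent ℝ (Subtype.val : ↥(S : Set E3) → E3)) ∧
    ∀ T : Finset (Finset E3), (∀ t ∈ T, t ⊆ P ∧ t.card = 4) →
      (⋃ t ∈ T, convexHull ℝ (t : Set E3)) = convexHull ℝ (P : Set E3) →
      (∀ t ∈ T, ∀ s ∈ T, convexHull ℝ (t : Set E3) ∩ convexHull ℝ (s : Set E3) =
        convexHull ℝ ((t : Set E3) ∩ (s : Set E3))) →
      (T.card : ℝ) ≤ 10 ^ 19 * n * Real.log n ^ 12 := by
  classical
  obtain ⟨m, hm⟩ : ∃ m, n = m + 4 := ⟨n - 4, by omega⟩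
  have hn0 : (0 : ℝ) < n := by exact_mod_cast (by omega : 0 < n)
  set k := 4 * (Nat.log 2 n + 1) with hk
  have hKpos : (0 : ℝ) < ((8 + k : ℕ) : ℝ) := by positivity
  set δ : ℝ := 1 / (16 * ((8 + k : ℕ) : ℝ) ^ 9 * n) with hδ
  have hδ0 : 0 < δ := by positivity
  obtain ⟨x, hinj, hC⟩ := exists_conf (m := m) (k := k) (Λ := ((8 + k : ℕ) : ℝ) ^ 3) (δ := δ)
    (by positivity) hδ0.le (params hm)
  refine ⟨Finset.univ.image fun i => φ (qx x i), ?_, ?_, ?_⟩
  · have hinj' : Function.Injective fun i => φ (qx x i) := φ.injective.comp hinj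
    rw [Finset.card_image_of_injective _ hinj', Finset.card_univ, Fintype.card_sum,
      Fintype.card_fin, Fintype.card_fin]
    omega
  · exact fun S hS hc => general_position hC.gp S hS hc
  · intro T h1 h2 h3
    obtain ⟨T', hT'c, hT'⟩ := exists_tri2 hinj hC.gp T h1 h2 h3
    rw [← hT'c]
    have hb := det_bound hT' hC hδ0 (by omega) le_rfl
    apply final h4 _ (K_le h4) hb
    have h5 : 2 ≤ Nat.log 2 n := by
      rw [Nat.le_log_iff_pow_le (by norm_num) (by omega)]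
      omega
    have h6 : 20 ≤ 8 + k := by omega
    exact_mod_cast h6

end Pool.Agent.Helper34.TP
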