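import Pool.Agent.Helper34.TP.Bary

/-!
Block TP-2.  Existence of the neighbour across a facet with points on both sides.

PROOF IN WORDS.  `F := q ∘ fct t v`, `y := ∑ j, (1/3) • F j` (so `y ∈ cv F`, `y ∈ cv (q ∘ t)`,
`bary (q ∘ t) y (v.succAbove j) = 1/3`, by `bary_of_comb` with the weights `Fin.insertNth v 0 (1/3)`).
For `ε ∈ (0,1)` the point `y_ε = (1-ε) • y + ε • q d` is in `cv q` (convexity), so in `cv (q ∘ t_ε)` for
some `t_ε ∈ T` (`hT.tri.cov`).  With `ε = 1/(k+2)` and `T` finite there is one `t' ∈ T` with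
`y_{1/(k+2)} ∈ cv (q ∘ t')` for infinitely many `k` (`Filter.frequently`, or pigeonhole
`Finite.exists_infinite_fiber`), so `y ∈ cv (q ∘ t')` (closed, `isClosed_cv`).
By `hT.ftf t ht t' ht' y`: all `fct t v j = t (v.succAbove j)` are in `range t'`.
Take one such `ε` with `y_ε ∈ cv (q ∘ t')`: `y_ε = ∑ w_u • q (t' u)`; `fn F y_ε = ε * fn F (q d)`
(`fn` is affine: `fn_comb`, `fn F y = 0`) and `fn F y_ε = ∑ w_u * fn F (q (t' u))`.  Multiply by
`fn F (q (t v))`: the left side is negative, so some `u` has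
`fn F (q (t' u)) * fn F (q (t v)) < 0`.
-/

set_option autoImplicit false

namespace Pool.Agent.Helper34.TP

open Set Pool.Agent.Helper46.Tet

theorem exists_nbr {ι : Type*} [Fintype ι] {q : ι → V} {T : Finset (Fin 4 → ι)} (hT : Tri2 q T)
    {t : Fin 4 → ι} (ht : t ∈ T) (v : Fin 4) {d : ι}
    (hd : fn (q ∘ fct t v) (q d) * fn (q ∘ fct t v) (q (t v)) < 0) :
    ∃ t', Nbr q T t v t' := by
  have hdt : Dt (q ∘ t) ≠ 0 := hT.tri.nd t ht
  -- the centre of the facet
  set y : V := ∑ j : Fin 3, ((1 : ℝ) / 3) • (q ∘ fct t v) j with hy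
  have hw1 : ∑ _j : Fin 3, ((1 : ℝ) / 3) = 1 := by
    rw [Fin.sum_univ_three]; norm_num
  have hyF : y ∈ cv (q ∘ fct t v) := ⟨fun _ => 1 / 3, fun _ => by norm_num, hw1, rfl⟩
  have hyt : y ∈ cv (q ∘ t) := cv_fct_subset v hyF
  have hyq : y ∈ cv q := cv_comp_subset q t hyt
  have hbary : ∀ j : Fin 3, bary (q ∘ t) y (v.succAbove j) = 1 / 3 := by
    intro j
    have hws : ∑ i, (Fin.insertNth v (0 : ℝ) (fun _ : Fin 3 => (1 : ℝ) / 3) : Fin 4 → ℝ) i = 1 := by
      rw [Fin.sum_univ_succAbove _ v]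
      simp only [Fin.insertNth_apply_same, Fin.insertNth_apply_succAbove]
      rw [hw1, zero_add]
    have hyc : y = ∑ i, (Fin.insertNth v (0 : ℝ) (fun _ : Fin 3 => (1 : ℝ) / 3) : Fin 4 → ℝ) i
        • (q ∘ t) i := by
      rw [Fin.sum_univ_succAbove _ v]
      simp only [Fin.insertNth_apply_same, Fin.insertNth_apply_succAbove, zero_smul, zero_add]
      rfl
    rw [hyc, bary_of_comb hdt hws, Fin.insertNth_apply_succAbove]
  -- the points near the centre
  set ys : ℕ → V := fun k => (1 - 1 / ((k : ℝ) + 2)) • y + (1 / ((k : ℝ) + 2)) • q d with hys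
  have hε0 : ∀ k : ℕ, 0 < 1 / ((k : ℝ) + 2) := fun k => by positivity
  have hε1 : ∀ k : ℕ, 1 / ((k : ℝ) + 2) ≤ 1 := by
    intro k
    rw [div_le_one (by positivity)]
    have : (0 : ℝ) ≤ k := Nat.cast_nonneg k
    linarith
  have hyk : ∀ k, ys k ∈ cv q := by
    intro k
    exact convex_cv q hyq (mem_cv_self q d) (by linarith [hε1 k]) (hε0 k).le (by ring)
  have hcov : ∀ k, ∃ s : T, ys k ∈ cv (q ∘ (s : Fin 4 → ι)) := by
    intro k
    have h1 := hT.tri.cov (hyk k)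
    simp only [mem_iUnion] at h1
    obtain ⟨s, hs, hsk⟩ := h1
    exact ⟨⟨s, hs⟩, hsk⟩
  choose f hf using hcov
  obtain ⟨t', ht'⟩ := Finite.exists_infinite_fiber f
  have hinf : (f ⁻¹' {t'}).Infinite := Set.infinite_coe_iff.1 ht'
  have hmem : ∀ k ∈ f ⁻¹' {t'}, ys k ∈ cv (q ∘ (t' : Fin 4 → ι)) := by
    intro k hk
    have h1 := hf k
    have h2 : f k = t' := hk
    rwa [h2] at h1
  have hlim : Filter.Tendsto ys Filter.atTop (nhds y) := by
    have h1 : Filter.Tendsto (fun k : ℕ => 1 / ((k : ℝ) + 2)) Filter.atTop (nhds 0) := by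
      have h2 : Filter.Tendsto (fun k : ℕ => (k : ℝ) + 2) Filter.atTop Filter.atTop :=
        Filter.tendsto_atTop_add_const_right _ _ tendsto_natCast_atTop_atTop
      simp only [one_div]
      exact h2.inv_tendsto_atTop
    have h3 : Filter.Tendsto ys Filter.atTop (nhds ((1 - (0 : ℝ)) • y + (0 : ℝ) • q d)) :=
      ((tendsto_const_nhds.sub h1).smul tendsto_const_nhds).add (h1.smul tendsto_const_nhds)
    simpa using h3
  have hyt' : y ∈ cv (q ∘ (t' : Fin 4 → ι)) := by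
    have hcl : IsClosed (cv (q ∘ (t' : Fin 4 → ι))) := isClosed_cv _
    refine hcl.mem_of_frequently_of_tendsto ?_ hlim
    exact (Nat.frequently_atTop_iff_infinite.2 hinf).mono fun k hk => hmem k hk
  obtain ⟨k, hk⟩ := hinf.nonempty
  obtain ⟨w, hw0, hws, hwc⟩ := hmem k hk
  refine ⟨t', t'.2, ?_, ?_⟩
  · intro j
    refine hT.ftf t ht t' t'.2 y hyt hyt' (v.succAbove j) ?_
    rw [hbary j]; norm_num
  · -- the sign
    have hfy : fn (q ∘ fct t v) y = 0 := fn_cv hyF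
    have hfk : fn (q ∘ fct t v) (ys k) = 1 / ((k : ℝ) + 2) * fn (q ∘ fct t v) (q d) := by
      have h1 : ys k = ∑ i : Fin 2, (![1 - 1 / ((k : ℝ) + 2), 1 / ((k : ℝ) + 2)] : Fin 2 → ℝ) i
          • (![y, q d] : Fin 2 → V) i := by
        rw [Fin.sum_univ_two]
        rfl
      have h2 : ∑ i : Fin 2, (![1 - 1 / ((k : ℝ) + 2), 1 / ((k : ℝ) + 2)] : Fin 2 → ℝ) i = 1 := by
        rw [Fin.sum_univ_two]
        show 1 - 1 / ((k : ℝ) + 2) + 1 / ((k : ℝ) + 2) = 1
        ring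
      rw [h1, fn_comb _ _ h2, Fin.sum_univ_two]
      show (1 - 1 / ((k : ℝ) + 2)) * fn (q ∘ fct t v) y
        + 1 / ((k : ℝ) + 2) * fn (q ∘ fct t v) (q d) = _
      rw [hfy, mul_zero, zero_add]
    by_contra hno
    push Not at hno
    have h3 : fn (q ∘ fct t v) (ys k) = ∑ u, w u * fn (q ∘ fct t v) (q ((t' : Fin 4 → ι) u)) := by
      rw [← hwc, fn_comb _ _ hws]
      rfl
    have h4 : 0 ≤ fn (q ∘ fct t v) (ys k) * fn (q ∘ fct t v) (q (t v)) := by
      rw [h3, Finset.sum_mul]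
      apply Finset.sum_nonneg
      intro u _
      rw [mul_assoc]
      exact mul_nonneg (hw0 u) (hno u)
    rw [hfk, mul_assoc] at h4
    have h5 := mul_neg_of_pos_of_neg (hε0 k) hd
    linarith

end Pool.Agent.Helper34.TP
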