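import Pool.Agent.Helper34.TP.RRvol

/-!
Project TP: the random configuration.  `m` iid uniform points of the unit cube and four fixed outer
vertices.
-/

set_option autoImplicit false

namespace Pool.Agent.Helper34.TP

open Set Pool.Agent.Helper46.Tet MeasureTheory

/-- The outer vertices. -/
def cor : Fin 4 → V := ![![-1, -1, -1], ![7, -1, -1], ![-1, 7, -1], ![-1, -1, 7]]

/-- The configuration: outer vertices and the points `x`. -/
def qx {m : ℕ} (x : Fin m → V) : Fin 4 ⊕ Fin m → V := Sum.elim cor x

/-- The uniform measure on the unit cube. -/
noncomputable def nu : Measure V := volume.restrict (Icc (0 : V) 1)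

instance : IsProbabilityMeasure nu := ⟨by rw [nu, Measure.restrict_apply_univ, vol_unit]⟩

/-- The law of `m` independent points. -/
noncomputable def Pm (m : ℕ) : Measure (Fin m → V) := Measure.pi fun _ => nu

instance (m : ℕ) : IsProbabilityMeasure (Pm m) := by unfold Pm; infer_instance

open Classical in
/-- `l` is a chain from `S` (the last point first): distinct points outside `S`, each attached to a
triangle with vertices in `S` and the later members of the list. -/
def Ch (Λ δ : ℝ) {m : ℕ} (x : Fin m → V) (S : Finset (Fin 4 ⊕ Fin m)) : List (Fin m) → Prop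
  | [] => True
  | d :: l => Sum.inr d ∉ S ∧ d ∉ l ∧
      Att Λ δ (qx x) (S ∪ (l.map Sum.inr).toFinset) (Sum.inr d) ∧ Ch Λ δ x S l

end Pool.Agent.Helper34.TP
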