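import Pool.Agent.Helper34.TP.PDefs

/-!
Block TP-7.  The probability that `l` is a chain from `S`.

PROOF IN WORDS.  Write `ρ = 8 Λ² δ`.
(a) `MeasurableSet {x | Ch Λ δ x S l}`: induction on `l`; `{x | RR Λ δ (qx x a) (qx x b) (qx x c) (qx x d)}` is
measurable (`qx x a` is continuous in `x`: constant or a coordinate; `crs`, `D3`, norms are
continuous: `measurableSet_le`, `measurableSet_eq_fun` / `(isClosed_eq ..).measurableSet.compl`), finite
unions.
(b) `Ch Λ δ x S l` does not depend on the coordinate `x d` if `inr d ∉ S` and `d ∉ l`: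
`Ch Λ δ (Function.update x d y) S l ↔ Ch Λ δ x S l` (induction on `l`; `qx (update x d y) a = qx x a` for
`a ≠ inr d`, and all members of `S` and of `l` are different from `d`).
(c) One step: let `A` be measurable and not dependent on the coordinate `d`, `a b c ≠ inr d`; then
`Pm m (A ∩ {x | RR (qx x a) (qx x b) (qx x c) (x d)}) ≤ ENNReal.ofReal ρ * Pm m A`:
`lintegral_le_of_lmarginal_le` with the set `{d}` for the functions `indicator (A ∩ E) 1` and
`ofReal ρ * indicator A 1` (`lmarginal_singleton`: integrate over `y` in `Function.update x d y`;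
`nu {y | RR (qx x a) (qx x b) (qx x c) y} ≤ volume {..} ≤ ofReal ρ` by `vol_RR`,
`Measure.restrict_apply_le`/`Measure.restrict_le_self`).
(d) Induction on `l`: for `d :: l` the event is contained in the union over
`a, b, c ∈ S ∪ l` (at most `K ^ 3` triples, as `(S ∪ ..).card ≤ S.card + l.length ≤ K`) of the sets of (c)
with `A = {Ch l}`; if `inr d ∈ S` or `d ∈ l` the event is empty.
-/

set_option autoImplicit false

namespace Pool.Agent.Helper34.TP

open Set Pool.Agent.Helper46.Tet MeasureTheory

/-! ### Measurability -/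

private theorem crs_cont_h54 {α : Type*} [TopologicalSpace α] {f g : α → V} (hf : Continuous f)
    (hg : Continuous g) : Continuous fun x => crs (f x) (g x) := by
  have hf' : ∀ i, Continuous fun x => f x i := fun i => (continuous_apply i).comp hf
  have hg' : ∀ i, Continuous fun x => g x i := fun i => (continuous_apply i).comp hg
  refine continuous_pi fun i => ?_
  fin_cases i
  · exact ((hf' 1).mul (hg' 2)).sub ((hf' 2).mul (hg' 1))
  · exact ((hf' 2).mul (hg' 0)).sub ((hf' 0).mul (hg' 2))
  · exact ((hf' 0).mul (hg' 1)).sub ((hf' 1).mul (hg' 0))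

private theorem D3_cont_h54 {α : Type*} [TopologicalSpace α] {f g h : α → V} (hf : Continuous f)
    (hg : Continuous g) (hh : Continuous h) : Continuous fun x => D3 (f x) (g x) (h x) := by
  have hc := crs_cont_h54 hf hg
  have hc' : ∀ i, Continuous fun x => crs (f x) (g x) i := fun i => (continuous_apply i).comp hc
  have hh' : ∀ i, Continuous fun x => h x i := fun i => (continuous_apply i).comp hh
  simp_rw [D3_eq]
  exact (((hc' 0).mul (hh' 0)).add ((hc' 1).mul (hh' 1))).add ((hc' 2).mul (hh' 2))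

private theorem qx_cont_h54 {m : ℕ} (a : Fin 4 ⊕ Fin m) : Continuous fun x : Fin m → V => qx x a := by
  rcases a with i | j
  · exact continuous_const
  · exact continuous_apply j

private theorem RR_meas_h54 (Λ δ : ℝ) {m : ℕ} (a b c d : Fin 4 ⊕ Fin m) :
    MeasurableSet {x : Fin m → V | RR Λ δ (qx x a) (qx x b) (qx x c) (qx x d)} := by
  have hab : Continuous fun x : Fin m → V => qx x b - qx x a :=
    (qx_cont_h54 b).sub (qx_cont_h54 a)
  have hac : Continuous fun x : Fin m → V => qx x c - qx x a :=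
    (qx_cont_h54 c).sub (qx_cont_h54 a)
  have had : Continuous fun x : Fin m → V => qx x d - qx x a :=
    (qx_cont_h54 d).sub (qx_cont_h54 a)
  have h1 : MeasurableSet {x : Fin m → V | crs (qx x b - qx x a) (qx x c - qx x a) ≠ 0} :=
    (isClosed_eq (crs_cont_h54 hab hac) continuous_const).measurableSet.compl
  have h2 : MeasurableSet {x : Fin m → V |
      |D3 (qx x b - qx x a) (qx x c - qx x a) (qx x d - qx x a)| ≤ δ} :=
    (isClosed_le (D3_cont_h54 hab hac had).abs continuous_const).measurableSet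
  have h3 : MeasurableSet {x : Fin m → V | ‖crs (qx x b - qx x a) (qx x d - qx x a)‖ ≤
      Λ * ‖crs (qx x b - qx x a) (qx x c - qx x a)‖} :=
    (isClosed_le (crs_cont_h54 hab had).norm
      (continuous_const.mul (crs_cont_h54 hab hac).norm)).measurableSet
  have h4 : MeasurableSet {x : Fin m → V | ‖crs (qx x c - qx x a) (qx x d - qx x a)‖ ≤
      Λ * ‖crs (qx x b - qx x a) (qx x c - qx x a)‖} :=
    (isClosed_le (crs_cont_h54 hac had).norm
      (continuous_const.mul (crs_cont_h54 hab hac).norm)).measurableSet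
  exact h1.inter (h2.inter (h3.inter h4))

private theorem Att_meas_h54 (Λ δ : ℝ) {m : ℕ} (S : Finset (Fin 4 ⊕ Fin m)) (d : Fin 4 ⊕ Fin m) :
    MeasurableSet {x : Fin m → V | Att Λ δ (qx x) S d} := by
  have : {x : Fin m → V | Att Λ δ (qx x) S d} = ⋃ a ∈ S, ⋃ b ∈ S, ⋃ c ∈ S,
      {x : Fin m → V | RR Λ δ (qx x a) (qx x b) (qx x c) (qx x d)} := by
    ext x
    simp only [Att, mem_ofPred_eq, mem_iUnion, exists_prop]
  rw [this]
  exact S.measurableSet_biUnion fun a _ => S.measurableSet_biUnion fun b _ =>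
    S.measurableSet_biUnion fun c _ => RR_meas_h54 Λ δ a b c d

private theorem Ch_meas_h54 (Λ δ : ℝ) {m : ℕ} (S : Finset (Fin 4 ⊕ Fin m)) (l : List (Fin m)) :
    MeasurableSet {x : Fin m → V | Ch Λ δ x S l} := by
  induction l with
  | nil =>
    have : {x : Fin m → V | Ch Λ δ x S []} = univ := by
      ext x
      simp [Ch]
    rw [this]
    exact MeasurableSet.univ
  | cons d l ih =>
    by_cases h : Sum.inr d ∉ S ∧ d ∉ l
    · have : {x : Fin m → V | Ch Λ δ x S (d :: l)} =
          {x : Fin m → V | Att Λ δ (qx x) (S ∪ (l.map Sum.inr).toFinset) (Sum.inr d)} ∩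
            {x : Fin m → V | Ch Λ δ x S l} := by
        ext x
        simp only [Ch, mem_ofPred_eq, mem_inter_iff]
        constructor
        · rintro ⟨-, -, h1, h2⟩
          exact ⟨h1, h2⟩
        · rintro ⟨h1, h2⟩
          exact ⟨h.1, h.2, h1, h2⟩
      rw [this]
      exact (Att_meas_h54 Λ δ _ _).inter ih
    · have : {x : Fin m → V | Ch Λ δ x S (d :: l)} = ∅ := by
        ext x
        simp only [Ch, mem_ofPred_eq, mem_empty_iff_false, iff_false]
        rintro ⟨h1, h2, -⟩
        exact h ⟨h1, h2⟩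
      rw [this]
      exact MeasurableSet.empty

/-! ### Independence of a coordinate -/

private theorem qx_update_h54 {m : ℕ} (x : Fin m → V) (d : Fin m) (y : V) {a : Fin 4 ⊕ Fin m}
    (ha : a ≠ Sum.inr d) : qx (Function.update x d y) a = qx x a := by
  rcases a with i | j
  · rfl
  · have hj : j ≠ d := fun h => ha (by rw [h])
    exact Function.update_of_ne hj y x

private theorem Ch_update_h54 (Λ δ : ℝ) {m : ℕ} (S : Finset (Fin 4 ⊕ Fin m)) (d : Fin m) (y : V)
    (x : Fin m → V) (hd : Sum.inr d ∉ S) {l : List (Fin m)} (hl : d ∉ l) :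
    Ch Λ δ (Function.update x d y) S l ↔ Ch Λ δ x S l := by
  induction l with
  | nil => simp [Ch]
  | cons e l ih =>
    have hl' : d ∉ l := fun h => hl (List.mem_cons_of_mem _ h)
    have hde : d ≠ e := fun h => hl (by rw [h]; exact List.mem_cons_self)
    have hne : ∀ a ∈ S ∪ (l.map Sum.inr).toFinset, a ≠ (Sum.inr d : Fin 4 ⊕ Fin m) := by
      intro a ha h
      subst h
      rcases Finset.mem_union.mp ha with h | h
      · exact hd h
      · rw [List.mem_toFinset, List.mem_map] at h
        obtain ⟨j, hj, hj'⟩ := h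
        exact hl' (Sum.inr_injective hj' ▸ hj)
    have hatt : Att Λ δ (qx (Function.update x d y)) (S ∪ (l.map Sum.inr).toFinset) (Sum.inr e) ↔
        Att Λ δ (qx x) (S ∪ (l.map Sum.inr).toFinset) (Sum.inr e) := by
      have he : qx (Function.update x d y) (Sum.inr e) = qx x (Sum.inr e) :=
        qx_update_h54 x d y fun h => hde (Sum.inr_injective h).symm
      unfold Att
      constructor
      · rintro ⟨a, ha, b, hb, c, hc, h⟩
        refine ⟨a, ha, b, hb, c, hc, ?_⟩
        rwa [he, qx_update_h54 x d y (hne a ha), qx_update_h54 x d y (hne b hb),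
          qx_update_h54 x d y (hne c hc)] at h
      · rintro ⟨a, ha, b, hb, c, hc, h⟩
        refine ⟨a, ha, b, hb, c, hc, ?_⟩
        rwa [he, qx_update_h54 x d y (hne a ha), qx_update_h54 x d y (hne b hb),
          qx_update_h54 x d y (hne c hc)]
    simp only [Ch]
    rw [hatt, ih hl']

/-! ### One step -/

private theorem one_step_h54 {Λ δ : ℝ} (hΛ : 0 ≤ Λ) (hδ : 0 ≤ δ) {m : ℕ} {A : Set (Fin m → V)}
    (hA : MeasurableSet A) (d : Fin m) (hinv : ∀ x y, Function.update x d y ∈ A ↔ x ∈ A)
    {a b c : Fin 4 ⊕ Fin m} (ha : a ≠ Sum.inr d) (hb : b ≠ Sum.inr d) (hc : c ≠ Sum.inr d) :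
    Pm m (A ∩ {x | RR Λ δ (qx x a) (qx x b) (qx x c) (qx x (Sum.inr d))}) ≤
      ENNReal.ofReal (8 * Λ ^ 2 * δ) * Pm m A := by
  have hE := RR_meas_h54 Λ δ a b c (Sum.inr d)
  have hAE := hA.inter hE
  have hg : Measurable fun x : Fin m → V =>
      ENNReal.ofReal (8 * Λ ^ 2 * δ) * A.indicator 1 x :=
    (measurable_one.indicator hA).const_mul _
  have key := lintegral_le_of_lmarginal_le (μ := fun _ : Fin m => nu) {d}
    (f := (A ∩ {x | RR Λ δ (qx x a) (qx x b) (qx x c) (qx x (Sum.inr d))}).indicator 1)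
    (g := fun x => ENNReal.ofReal (8 * Λ ^ 2 * δ) * A.indicator 1 x)
    (measurable_one.indicator hAE) hg ?_
  · rw [lintegral_indicator_one hAE, lintegral_const_mul _ (measurable_one.indicator hA),
      lintegral_indicator_one hA] at key
    exact key
  · rw [lmarginal_singleton, lmarginal_singleton]
    intro x
    show ∫⁻ y, (A ∩ {x | RR Λ δ (qx x a) (qx x b) (qx x c) (qx x (Sum.inr d))}).indicator 1
        (Function.update x d y) ∂nu ≤
      ∫⁻ y, ENNReal.ofReal (8 * Λ ^ 2 * δ) * A.indicator 1 (Function.update x d y) ∂nu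
    by_cases hx : x ∈ A
    · have e1 : (fun y : V => (A ∩ {x | RR Λ δ (qx x a) (qx x b) (qx x c)
          (qx x (Sum.inr d))}).indicator (1 : (Fin m → V) → ENNReal) (Function.update x d y)) =
          fun y => {y : V | RR Λ δ (qx x a) (qx x b) (qx x c) y}.indicator 1 y := by
        funext y
        have hiff : Function.update x d y ∈
            (A ∩ {x | RR Λ δ (qx x a) (qx x b) (qx x c) (qx x (Sum.inr d))}) ↔
            y ∈ {y : V | RR Λ δ (qx x a) (qx x b) (qx x c) y} := by
          have hd : qx (Function.update x d y) (Sum.inr d) = y := by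
            show Function.update x d y d = y
            simp
          rw [mem_inter_iff, hinv, mem_ofPred_eq, mem_ofPred_eq, qx_update_h54 x d y ha,
            qx_update_h54 x d y hb, qx_update_h54 x d y hc, hd]
          exact and_iff_right hx
        by_cases hy : y ∈ {y : V | RR Λ δ (qx x a) (qx x b) (qx x c) y}
        · rw [indicator_of_mem (hiff.mpr hy), indicator_of_mem hy]
          rfl
        · rw [indicator_of_notMem (fun h => hy (hiff.mp h)), indicator_of_notMem hy]
      have e2 : (fun y : V => ENNReal.ofReal (8 * Λ ^ 2 * δ) *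
          A.indicator (1 : (Fin m → V) → ENNReal) (Function.update x d y)) =
          fun _ => ENNReal.ofReal (8 * Λ ^ 2 * δ) := by
        funext y
        rw [indicator_of_mem ((hinv x y).mpr hx)]
        simp
      rw [e1, e2, lintegral_const, measure_univ, mul_one]
      calc ∫⁻ y, {y : V | RR Λ δ (qx x a) (qx x b) (qx x c) y}.indicator 1 y ∂nu
          ≤ nu {y : V | RR Λ δ (qx x a) (qx x b) (qx x c) y} := lintegral_indicator_one_le _
        _ ≤ volume {y : V | RR Λ δ (qx x a) (qx x b) (qx x c) y} :=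
            Measure.le_iff'.mp Measure.restrict_le_self _
        _ ≤ ENNReal.ofReal (8 * Λ ^ 2 * δ) := vol_RR hΛ hδ _ _ _
    · have e1 : (fun y : V => (A ∩ {x | RR Λ δ (qx x a) (qx x b) (qx x c)
          (qx x (Sum.inr d))}).indicator (1 : (Fin m → V) → ENNReal) (Function.update x d y)) =
          fun _ => 0 := by
        funext y
        rw [indicator_of_notMem]
        rintro ⟨h, -⟩
        exact hx ((hinv x y).mp h)
      rw [e1, lintegral_zero]
      exact zero_le

theorem prob_chain {Λ δ : ℝ} (hΛ : 0 ≤ Λ) (hδ : 0 ≤ δ) {m K : ℕ} (S : Finset (Fin 4 ⊕ Fin m))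
    (l : List (Fin m)) (h : S.card + l.length ≤ K) :
    Pm m {x | Ch Λ δ x S l} ≤
      (ENNReal.ofReal ((K : ℝ) ^ 3 * (8 * Λ ^ 2 * δ))) ^ l.length := by
  induction l with
  | nil =>
    rw [List.length_nil, pow_zero]
    exact prob_le_one
  | cons d l ih =>
    rw [List.length_cons] at h
    by_cases hd : Sum.inr d ∉ S ∧ d ∉ l
    · set S' := S ∪ (l.map Sum.inr).toFinset with hS'
      have hcard : S'.card ≤ K := by
        have h1 : S'.card ≤ S.card + ((l.map Sum.inr).toFinset :
            Finset (Fin 4 ⊕ Fin m)).card := Finset.card_union_le _ _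
        have h2 : ((l.map Sum.inr).toFinset : Finset (Fin 4 ⊕ Fin m)).card ≤ l.length := by
          have := List.toFinset_card_le (l.map (Sum.inr : Fin m → Fin 4 ⊕ Fin m))
          rwa [List.length_map] at this
        omega
      have hne : ∀ a ∈ S', a ≠ (Sum.inr d : Fin 4 ⊕ Fin m) := by
        intro a ha h
        subst h
        rcases Finset.mem_union.mp ha with h | h
        · exact hd.1 h
        · rw [List.mem_toFinset, List.mem_map] at h
          obtain ⟨j, hj, hj'⟩ := h
          exact hd.2 (Sum.inr_injective hj' ▸ hj)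
      have hsub : {x : Fin m → V | Ch Λ δ x S (d :: l)} ⊆
          ⋃ t ∈ S' ×ˢ S' ×ˢ S', ({x : Fin m → V | Ch Λ δ x S l} ∩
            {x | RR Λ δ (qx x t.1) (qx x t.2.1) (qx x t.2.2) (qx x (Sum.inr d))}) := by
        intro x hx
        simp only [mem_ofPred_eq, Ch] at hx
        obtain ⟨-, -, ⟨a, ha, b, hb, c, hc, hr⟩, hch⟩ := hx
        refine mem_iUnion₂.mpr ⟨(a, b, c), ?_, hch, hr⟩
        exact Finset.mem_product.mpr ⟨ha, Finset.mem_product.mpr ⟨hb, hc⟩⟩
      have hih := ih (by omega)
      have hk : ENNReal.ofReal ((K : ℝ) ^ 3 * (8 * Λ ^ 2 * δ)) =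
          ((K ^ 3 : ℕ) : ENNReal) * ENNReal.ofReal (8 * Λ ^ 2 * δ) := by
        rw [ENNReal.ofReal_mul (by positivity), ENNReal.ofReal_pow (Nat.cast_nonneg K),
          ENNReal.ofReal_natCast]
        push_cast
        rfl
      calc Pm m {x | Ch Λ δ x S (d :: l)}
          ≤ Pm m (⋃ t ∈ S' ×ˢ S' ×ˢ S', ({x : Fin m → V | Ch Λ δ x S l} ∩
            {x | RR Λ δ (qx x t.1) (qx x t.2.1) (qx x t.2.2) (qx x (Sum.inr d))})) :=
            measure_mono hsub
        _ ≤ ∑ t ∈ S' ×ˢ S' ×ˢ S', Pm m ({x : Fin m → V | Ch Λ δ x S l} ∩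
            {x | RR Λ δ (qx x t.1) (qx x t.2.1) (qx x t.2.2) (qx x (Sum.inr d))}) :=
            measure_biUnion_finset_le _ _
        _ ≤ ∑ t ∈ S' ×ˢ S' ×ˢ S', ENNReal.ofReal (8 * Λ ^ 2 * δ) *
            Pm m {x : Fin m → V | Ch Λ δ x S l} := by
            refine Finset.sum_le_sum fun t ht => ?_
            obtain ⟨h1, h23⟩ := Finset.mem_product.mp ht
            obtain ⟨h2, h3⟩ := Finset.mem_product.mp h23
            exact one_step_h54 hΛ hδ (Ch_meas_h54 Λ δ S l) d
              (fun x y => Ch_update_h54 Λ δ S d y x hd.1 hd.2) (hne _ h1) (hne _ h2) (hne _ h3)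
        _ = ((S'.card ^ 3 : ℕ) : ENNReal) * (ENNReal.ofReal (8 * Λ ^ 2 * δ) *
            Pm m {x : Fin m → V | Ch Λ δ x S l}) := by
            rw [Finset.sum_const, Finset.card_product, Finset.card_product, nsmul_eq_mul]
            congr 2
            ring
        _ ≤ ((K ^ 3 : ℕ) : ENNReal) * (ENNReal.ofReal (8 * Λ ^ 2 * δ) *
            (ENNReal.ofReal ((K : ℝ) ^ 3 * (8 * Λ ^ 2 * δ))) ^ l.length) := by
            gcongr
        _ = (ENNReal.ofReal ((K : ℝ) ^ 3 * (8 * Λ ^ 2 * δ))) ^ (d :: l).length := by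
            rw [List.length_cons, pow_succ' (ENNReal.ofReal ((K : ℝ) ^ 3 * (8 * Λ ^ 2 * δ))),
              ← mul_assoc, ← hk]
    · have : {x : Fin m → V | Ch Λ δ x S (d :: l)} = ∅ := by
        ext x
        simp only [Ch, mem_ofPred_eq, mem_empty_iff_false, iff_false]
        rintro ⟨h1, h2, -⟩
        exact hd ⟨h1, h2⟩
      rw [this, measure_empty]
      exact zero_le

end Pool.Agent.Helper34.TP
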