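import Pool.Agent.Helper34.TP.Bary

/-!
Block TP-6.  The region of a triangle has volume at most `8 Λ² δ`, for every shape of the triangle.

PROOF IN WORDS.  Let `N = crs (b - a) (c - a)`.  If `N = 0` the set is empty.  Otherwise choose `i` with
`|N i| = ‖N‖ > 0` (sup norm: `Pi.exists_norm_apply_eq...` or `pi_norm_le_iff`, finite maximum).  Put
`e = Pi.single i 1`.  `D3 (b - a) (c - a) e = N i ≠ 0` (`D3_eq`), so every `d` can be written
`d - a = s • (b - a) + u • (c - a) + h • e` (Cramer; `s, u, h` quotients of `D3`s by `N i`).  Component `i` of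
the cross products: `crs (b-a) (d-a) i = u * N i`, `crs (c-a) (d-a) i = - s * N i` (the component `i` of
`crs x e` vanishes), `D3 (b-a) (c-a) (d-a) = h * N i`.  So `|u|, |s| ≤ Λ` and `|h| ≤ δ / |N i|`.  Hence the
set is contained in the image of `Icc ![-Λ, -Λ, -δ/|N i|] ![Λ, Λ, δ/|N i|]` under
`x ↦ a + Lc (b - a) (c - a) e x`, whose volume is `|N i| * (2Λ)^2 * (2δ/|N i|) = 8 Λ² δ`
(`vol_affine`, `Real.volume_Icc_pi`).
-/

set_option autoImplicit false

namespace Pool.Agent.Helper34.TP

open Set Pool.Agent.Helper46.Tet MeasureTheory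

/-- Cramer's rule. -/
private theorem cramer50 {u v e : V} (h : D3 u v e ≠ 0) (w : V) :
    w = (D3 w v e / D3 u v e) • u + (D3 u w e / D3 u v e) • v + (D3 u v w / D3 u v e) • e := by
  ext j
  simp only [Pi.add_apply, Pi.smul_apply, smul_eq_mul]
  rw [div_mul_eq_mul_div, div_mul_eq_mul_div, div_mul_eq_mul_div, ← add_div, ← add_div, eq_div_iff h]
  simp only [D3]
  fin_cases j <;> (simp only [Fin.zero_eta, Fin.mk_one, Fin.reduceFinMk]; ring)

private theorem D3_single50 (u v : V) (i : Fin 3) : D3 u v (Pi.single i 1) = crs u v i := by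
  rw [D3_eq]
  fin_cases i <;> simp

private theorem crs_swap50 (u v : V) (i : Fin 3) : crs u v i = - crs v u i := by
  fin_cases i <;> (simp [crs]; ring)

private theorem exists_max50 (x : V) : ∃ i, |x i| = ‖x‖ := by
  obtain ⟨i, -, hi⟩ := Finset.exists_max_image Finset.univ (fun i : Fin 3 => ‖x i‖)
    ⟨0, Finset.mem_univ _⟩
  refine ⟨i, le_antisymm ?_ ?_⟩
  · exact norm_le_pi_norm x i
  · exact (pi_norm_le_iff_of_nonneg (norm_nonneg (x i))).2 fun j => hi j (Finset.mem_univ _)

private theorem vol_box50 {x y z : ℝ} (hx : 0 ≤ x) (hy : 0 ≤ y) :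
    volume (Icc (![-x, -y, -z] : V) ![x, y, z]) = ENNReal.ofReal (8 * (x * y * z)) := by
  rw [Real.volume_Icc_pi, Fin.prod_univ_three]
  simp only [Matrix.cons_val]
  rw [← ENNReal.ofReal_mul (by linarith), ← ENNReal.ofReal_mul (by nlinarith)]
  congr 1
  ring

theorem vol_RR {Λ δ : ℝ} (hΛ : 0 ≤ Λ) (hδ : 0 ≤ δ) (a b c : V) :
    volume {d : V | RR Λ δ a b c d} ≤ ENNReal.ofReal (8 * Λ ^ 2 * δ) := by
  by_cases hN : crs (b - a) (c - a) = 0
  · have : {d : V | RR Λ δ a b c d} = ∅ := by
      ext d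
      simp only [mem_ofPred_eq, mem_empty_iff_false, iff_false]
      exact fun h => h.1 hN
    rw [this]
    simp
  · obtain ⟨i, hi⟩ := exists_max50 (crs (b - a) (c - a))
    have hpos : 0 < ‖crs (b - a) (c - a)‖ := norm_pos_iff.2 hN
    set M : ℝ := ‖crs (b - a) (c - a)‖ with hM
    have hD : |D3 (b - a) (c - a) (Pi.single i 1)| = M := by rw [D3_single50, hi]
    have hD0 : D3 (b - a) (c - a) (Pi.single i 1) ≠ 0 := by
      intro h0
      rw [h0, abs_zero] at hD
      exact hpos.ne hD
    have hsub : {d : V | RR Λ δ a b c d} ⊆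
        (fun x => a + Lc (b - a) (c - a) (Pi.single i 1) x) ''
          Icc (![-Λ, -Λ, -(δ / M)] : V) ![Λ, Λ, δ / M] := by
      rintro d ⟨-, h1, h2, h3⟩
      have hs : |D3 (d - a) (c - a) (Pi.single i 1) / D3 (b - a) (c - a) (Pi.single i 1)| ≤ Λ := by
        rw [abs_div, hD, div_le_iff₀ hpos, D3_single50, crs_swap50, abs_neg]
        exact (norm_le_pi_norm (crs (c - a) (d - a)) i).trans h3
      have ht : |D3 (b - a) (d - a) (Pi.single i 1) / D3 (b - a) (c - a) (Pi.single i 1)| ≤ Λ := by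
        rw [abs_div, hD, div_le_iff₀ hpos, D3_single50]
        exact (norm_le_pi_norm (crs (b - a) (d - a)) i).trans h2
      have hh : |D3 (b - a) (c - a) (d - a) / D3 (b - a) (c - a) (Pi.single i 1)| ≤ δ / M := by
        rw [abs_div, hD]
        exact div_le_div_of_nonneg_right h1 hpos.le
      refine ⟨![D3 (d - a) (c - a) (Pi.single i 1) / D3 (b - a) (c - a) (Pi.single i 1),
        D3 (b - a) (d - a) (Pi.single i 1) / D3 (b - a) (c - a) (Pi.single i 1),
        D3 (b - a) (c - a) (d - a) / D3 (b - a) (c - a) (Pi.single i 1)], ⟨?_, ?_⟩, ?_⟩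
      · intro j
        fin_cases j
        · exact (abs_le.1 hs).1
        · exact (abs_le.1 ht).1
        · exact (abs_le.1 hh).1
      · intro j
        fin_cases j
        · exact (abs_le.1 hs).2
        · exact (abs_le.1 ht).2
        · exact (abs_le.1 hh).2
      · show a + Lc (b - a) (c - a) (Pi.single i 1) _ = d
        rw [Lc_apply]
        simp only [Matrix.cons_val]
        rw [← cramer50 hD0 (d - a)]
        exact add_sub_cancel a d
    refine (measure_mono hsub).trans ?_
    rw [vol_affine, hD, vol_box50 hΛ hΛ, ← ENNReal.ofReal_mul hpos.le]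
    apply le_of_eq
    congr 1
    field_simp

end Pool.Agent.Helper34.TP
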